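import Pool.Agent.Helper64_MTA.Cen
import Pool.Agent.MT100A.Stmts

/-! MT100-A, module LIE: unipotent one parameter subgroups which preserve all the Hodge forms of
degree four are contained in the Mumford-Tate group. -/

set_option autoImplicit false
set_option linter.unusedSectionVars false

namespace Pool.Agent.MT100A.H64

open MvPolynomial Matrix Module Pool.Agent.Helper78_MT Pool.Agent.Helper3_MT
  Pool.Agent.Helper46_MT Pool.Agent.MT100 Pool.Agent.MT100G.H46 Pool.Agent.MT100GO.H46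

open scoped ComplexOrder

variable {n : Type} [Fintype n] [DecidableEq n] {w : ℕ} {E : Matrix n n ℚ}
  {π : ℕ → Matrix n n ℂ} {V : ℕ → Submodule ℂ (n → ℂ)} {I : Set (MvPolynomial (n × n) ℚ)}

/-! ### Tensors -/

theorem tA_val (t : (Fin 4 → n) → ℂ) (g : Matrix n n ℂ) (x : Fin 4 → n → ℂ) :
    ∑ β, t β * ∏ j, (g *ᵥ x j) (β j) = ∑ α, tA t g α * ∏ j, x j (α j) := by
  have h1 : ∀ β : Fin 4 → n, ∏ j, (g *ᵥ x j) (β j) =
      ∑ α : Fin 4 → n, (∏ j, g (β j) (α j)) * ∏ j, x j (α j) := by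
    intro β
    simp only [mulVec, dotProduct]
    rw [Finset.prod_univ_sum, Fintype.piFinset_univ]
    refine Finset.sum_congr rfl fun α _ => ?_
    rw [Finset.prod_mul_distrib]
  simp only [h1, tA, Finset.mul_sum, Finset.sum_mul]
  rw [Finset.sum_comm]
  refine Finset.sum_congr rfl fun α _ => Finset.sum_congr rfl fun β _ => ?_
  ring

/-- the tensor of degree four attached to a rational matrix -/
def zt (E Q : Matrix n n ℚ) (β : Fin 4 → n) : ℚ := (E * Q) (β 0) (β 1) * E (β 2) (β 3)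

theorem zt_val (E Q : Matrix n n ℚ) (x : Fin 4 → n → ℂ) :
    ∑ β, (zt E Q β : ℂ) * ∏ j, x j (β j) =
      (x 0 ⬝ᵥ ((E.map (algebraMap ℚ ℂ) * Q.map (algebraMap ℚ ℂ)) *ᵥ x 1)) *
        (x 2 ⬝ᵥ (E.map (algebraMap ℚ ℂ) *ᵥ x 3)) := by
  rw [sum4]
  have h1 : ∀ (A : Matrix n n ℂ) (u v : n → ℂ), u ⬝ᵥ (A *ᵥ v) = ∑ a, ∑ b, A a b * (u a * v b) := by
    intro A u v
    simp only [dotProduct, mulVec, Finset.mul_sum]
    apply Finset.sum_congr rfl
    intro a _
    apply Finset.sum_congr rfl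
    intro b _
    ring
  have h2 : E.map (algebraMap ℚ ℂ) * Q.map (algebraMap ℚ ℂ) =
      (E * Q).map (algebraMap ℚ ℂ) := (Matrix.map_mul).symm
  rw [h2, h1, h1, Finset.sum_mul]
  refine Finset.sum_congr rfl fun a _ => ?_
  rw [Finset.sum_mul]
  refine Finset.sum_congr rfl fun b _ => ?_
  rw [Finset.mul_sum]
  refine Finset.sum_congr rfl fun c _ => ?_
  rw [Finset.mul_sum]
  refine Finset.sum_congr rfl fun e _ => ?_
  simp only [zt, Fin.prod_univ_four, Matrix.cons_val_zero, Matrix.cons_val_one, Matrix.cons_val,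
    Rat.cast_mul, Matrix.map_apply, eq_ratCast]
  ring

/-! ### Bilinear maps -/

/-- `(A, B) ↦ Aᵀ P B` -/
noncomputable def bilT (P : Matrix n n ℂ) : Matrix n n ℂ →ₗ[ℂ] Matrix n n ℂ →ₗ[ℂ] Matrix n n ℂ :=
  LinearMap.mk₂ ℂ (fun A B => Aᵀ * P * B)
    (fun a b c => by rw [transpose_add, add_mul, add_mul])
    (fun r a b => by rw [transpose_smul, smul_mul_assoc, smul_mul_assoc])
    (fun a b c => by rw [mul_add])
    (fun r a b => by rw [mul_smul_comm])

/-- `(A, B) ↦ A P B` -/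
noncomputable def bilM (P : Matrix n n ℂ) : Matrix n n ℂ →ₗ[ℂ] Matrix n n ℂ →ₗ[ℂ] Matrix n n ℂ :=
  LinearMap.mk₂ ℂ (fun A B => A * P * B)
    (fun a b c => by rw [add_mul, add_mul])
    (fun r a b => by rw [smul_mul_assoc, smul_mul_assoc])
    (fun a b c => by rw [mul_add])
    (fun r a b => by rw [mul_smul_comm])

theorem bilT_apply (P A B : Matrix n n ℂ) : bilT P A B = Aᵀ * P * B := rfl

theorem bilM_apply (P A B : Matrix n n ℂ) : bilM P A B = A * P * B := rfl

/-- the derivative of an invariance -/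
theorem deriv_inv {X P : Matrix n n ℂ} (hX : IsNilpotent X)
    (h : ∀ s : ℂ, (ue X s)ᵀ * P * ue X s = P) : Xᵀ * P + P * X = 0 := by
  have h1 := coeff_lin ⊥ (bilT P) hX hX P (fun s => by
    rw [bilT_apply, h s, sub_self]
    exact Submodule.zero_mem _)
  rw [bilT_apply, bilT_apply, transpose_one, mul_one, one_mul, Submodule.mem_bot] at h1
  exact h1

/-- the derivative of a stable subspace -/
theorem deriv_stab {X Z : Matrix n n ℂ} (hX : IsNilpotent X) (U : Submodule ℂ (Matrix n n ℂ))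
    (h : ∀ s : ℂ, ue X (-s) * Z * ue X s ∈ U) : X * Z - Z * X ∈ U := by
  have h1 := coeff_lin U (bilM Z) hX.neg hX 0 (fun s => by
    rw [bilM_apply, ue_neg hX, sub_zero]
    exact h s)
  rw [bilM_apply, bilM_apply, mul_one, one_mul] at h1
  have h2 : X * Z - Z * X = -(-X * Z + Z * X) := by
    rw [neg_mul]
    abel
  rw [h2]
  exact Submodule.neg_mem _ h1

theorem dot_conj (g A : Matrix n n ℂ) (x y : n → ℂ) :
    (g *ᵥ x) ⬝ᵥ (A *ᵥ (g *ᵥ y)) = x ⬝ᵥ ((gᵀ * A * g) *ᵥ y) := by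
  rw [mulVec_mulVec, ← vecMul_transpose g x, ← dotProduct_mulVec, mulVec_mulVec, ← mul_assoc]

section
variable {d : ℕ} {Y : Fin d → Matrix n n ℚ} {c : Fin d → ℚ}

/-- the projection to the Lie algebra -/
noncomputable def prU (Y : Fin d → Matrix n n ℚ) (c : Fin d → ℚ) (y : Matrix n n ℂ) :
    Matrix n n ℂ :=
  ∑ i, ((algebraMap ℚ ℂ (c i))⁻¹ * (y * (Y i).map (algebraMap ℚ ℂ)).trace) •
    (Y i).map (algebraMap ℚ ℂ)

theorem prU_mem (h : OB I E Y c) (y : Matrix n n ℂ) : prU Y c y ∈ Ul I E :=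
  Submodule.sum_mem _ fun i _ => Submodule.smul_mem _ _ (h.mem i)

theorem prU_orth (h : OB I E Y c) (y : Matrix n n ℂ) {Z : Matrix n n ℂ} (hZ : Z ∈ Ul I E) :
    ((y - prU Y c y) * Z).trace = 0 := by
  have key : ∀ j, ((y - prU Y c y) * (Y j).map (algebraMap ℚ ℂ)).trace = 0 := by
    intro j
    have h1 : (prU Y c y * (Y j).map (algebraMap ℚ ℂ)).trace =
        (y * (Y j).map (algebraMap ℚ ℂ)).trace := by
      unfold prU
      rw [Finset.sum_mul, trace_sum, Finset.sum_eq_single j]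
      · rw [smul_mul_assoc, trace_smul, smul_eq_mul, MT100G.H46.trace_map, h.orth, if_pos rfl]
        have : algebraMap ℚ ℂ (c j) ≠ 0 := (_root_.map_ne_zero _).2 (h.ne j)
        field_simp
      · intro i _ hij
        rw [smul_mul_assoc, trace_smul, MT100G.H46.trace_map, h.orth, if_neg hij, map_zero, smul_zero]
      · intro hj
        exact absurd (Finset.mem_univ _) hj
    rw [sub_mul, trace_sub, h1, sub_self]
  rw [h.exp Z hZ, Finset.mul_sum, trace_sum]
  refine Finset.sum_eq_zero fun i _ => ?_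
  rw [mul_smul_comm, trace_smul, key, smul_zero]

end

/-- a matrix orthogonal to the Lie algebra which normalises it centralises it -/
theorem orth_comm (nd : ∀ X ∈ Ul I E, (∀ Y ∈ Ul I E, (X * Y).trace = 0) → X = 0)
    {y : Matrix n n ℂ} (h1 : ∀ Z ∈ Ul I E, y * Z - Z * y ∈ Ul I E)
    (h2 : ∀ Z ∈ Ul I E, (y * Z).trace = 0)
    (h3 : yᵀ * E.map (algebraMap ℚ ℂ) + E.map (algebraMap ℚ ℂ) * y = 0) : y ∈ Zz I E := by
  refine ⟨fun Z hZ => ?_, h3⟩
  rw [← sub_eq_zero]
  refine nd _ (h1 Z hZ) fun Z' hZ' => ?_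
  have h4 := h2 _ (Ul_br hZ hZ')
  have h5 : (Z * y * Z').trace = (y * (Z' * Z)).trace := by
    rw [mul_assoc, trace_mul_comm, mul_assoc]
  rw [mul_sub, trace_sub, ← mul_assoc] at h4
  rw [sub_mul, trace_sub, h5]
  exact h4

theorem skew_sub {X Y F : Matrix n n ℂ} (hX : Xᵀ * F + F * X = 0) (hY : Yᵀ * F + F * Y = 0) :
    (X - Y)ᵀ * F + F * (X - Y) = 0 := by
  rw [transpose_sub, sub_mul, mul_sub]
  have h1 : Xᵀ * F - Yᵀ * F + (F * X - F * Y) = (Xᵀ * F + F * X) - (Yᵀ * F + F * Y) := by abel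
  rw [h1, hX, hY, sub_zero]

/-- **LIE** -/
theorem lie : LieStmt := by
  intro n _ _ w E V hw hV X hX hiso hT s I hG hI
  obtain ⟨π, hπ, h1, h2, h3⟩ := proj_of hV
  have hE := det_ne hV
  have hFd := det_map hE
  have hI' : ∀ z : ℂ, z ≠ 0 → hz w π z ∈ zeros I ℂ := fun z hz0 => hI _ (hz_torus hπ h2 hz0)
  have nd : ∀ X ∈ Ul I E, (∀ Y ∈ Ul I E, (X * Y).trace = 0) → X = 0 := by
    intro X hX hX0
    rcases Nat.even_or_odd w with he | ho
    · exact trace_nd_even hV he hw hπ h1 hG hI' hX hX0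
    · exact trace_nd hV ho hπ h1 hG hI' hX hX0
  obtain ⟨d, Y, c, hc1, hc2, hc3, hc4⟩ := exists_orth (I := I) (E := E) nd
  have hob : OB I E Y c := ⟨hc1, hc2, hc3, hc4⟩
  have hXs : Xᵀ * E.map (algebraMap ℚ ℂ) + E.map (algebraMap ℚ ℂ) * X = 0 := deriv_inv hX hiso
  -- the Lie algebra is stable
  have hst : ∀ Z ∈ Ul I E, X * Z - Z * X ∈ Ul I E := by
    intro Z hZ
    apply deriv_stab hX
    intro s
    refine hob.stable hFd (ue_inv hX s) (hiso s) (fun x => ?_) hZ
    have h5 := hT (tt E Y c) (fun p x hx hp => by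
      rw [tt_val]
      exact hob.hodge hπ hw hG hI' h2 hV.top hx (Ne.symm hp)) s
    rw [← tt_val, ← tt_val, tA_val (fun β => (tt E Y c β : ℂ)), h5]
  -- `X` commutes with the centralizer
  have hcz : ∀ z ∈ Zz I E, X * z = z * X := by
    intro z hz
    have hdes := desc (Zz I E) (fun τ X hX => Zz_aut τ hX) hz
    clear hz
    induction hdes using Submodule.span_induction with
    | mem z hz =>
      obtain ⟨Q, rfl, hQ⟩ := hz
      rcases isEmpty_or_nonempty n with hn | hn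
      · exact Subsingleton.elim _ _
      obtain ⟨F, hF⟩ : ∃ F, F = E.map (algebraMap ℚ ℂ) := ⟨_, rfl⟩
      have hF0 : F ≠ 0 := by
        rintro h0
        rw [hF] at h0
        rw [h0, det_zero] at hFd
        exact not_isUnit_zero hFd
      obtain ⟨x₂, x₃, hx⟩ : ∃ x₂ x₃ : n → ℂ, x₂ ⬝ᵥ (F *ᵥ x₃) ≠ 0 := by
        by_contra hno
        push Not at hno
        exact hF0 (zero_of_dot hno)
      have h5 := hT (zt E Q) (fun p x hx hp => by
        rw [zt_val]
        by_cases h01 : p 0 + p 1 = w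
        · have h23 : p 2 + p 3 ≠ w := by
            intro h23
            apply hp
            rw [Fin.sum_univ_four]
            omega
          rw [hV.orth _ _ h23 _ (hx 2) _ (hx 3), mul_zero]
        · rw [← mulVec_mulVec, hV.orth _ _ h01 _ (hx 0) _
            (piece hπ hw hG hI' hQ hV h1 h2 (hx 1)), zero_mul])
      have h6 : ∀ s : ℂ, (ue X s)ᵀ * (F * Q.map (algebraMap ℚ ℂ)) * ue X s =
          F * Q.map (algebraMap ℚ ℂ) := by
        intro s
        rw [← sub_eq_zero]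
        apply zero_of_dot
        intro x₀ x₁
        have h7 := tA_val (fun β => (zt E Q β : ℂ)) (ue X s) ![x₀, x₁, x₂, x₃]
        rw [h5 s, zt_val, zt_val] at h7
        simp only [Matrix.cons_val_zero, Matrix.cons_val_one, Matrix.cons_val] at h7
        rw [← hF, dot_conj, dot_conj] at h7
        have h8 := hiso s
        rw [← hF] at h8
        rw [h8] at h7
        have h9 := mul_right_cancel₀ hx h7
        rw [sub_mulVec, dotProduct_sub, h9, sub_self]
      have h7 := deriv_inv hX h6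
      rw [← hF] at hXs
      have h8 : F * (Q.map (algebraMap ℚ ℂ) * X - X * Q.map (algebraMap ℚ ℂ)) = 0 := by
        rw [← mul_assoc, eq_neg_of_add_eq_zero_left hXs] at h7
        rw [mul_sub, ← mul_assoc, ← mul_assoc]
        rw [neg_mul] at h7
        rw [← h7]
        abel
      rw [← hF] at hFd
      have h9 : Q.map (algebraMap ℚ ℂ) * X - X * Q.map (algebraMap ℚ ℂ) = 0 := by
        calc Q.map (algebraMap ℚ ℂ) * X - X * Q.map (algebraMap ℚ ℂ)
            = F⁻¹ * (F * (Q.map (algebraMap ℚ ℂ) * X - X * Q.map (algebraMap ℚ ℂ))) := by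
              rw [← mul_assoc, nonsing_inv_mul F hFd, one_mul]
          _ = 0 := by rw [h8, mul_zero]
      exact (sub_eq_zero.1 h9).symm
    | zero => rw [mul_zero, zero_mul]
    | add a b _ _ ha hb => rw [mul_add, add_mul, ha, hb]
    | smul r a _ ha => rw [mul_smul_comm, smul_mul_assoc, ha]
  -- the components
  obtain ⟨u, hu⟩ : ∃ u, u = prU Y c X := ⟨_, rfl⟩
  have huU : u ∈ Ul I E := by rw [hu]; exact prU_mem hob X
  have hvo : ∀ Z ∈ Ul I E, ((X - u) * Z).trace = 0 := by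
    intro Z hZ
    rw [hu]
    exact prU_orth hob X hZ
  have hvz : X - u ∈ Zz I E := by
    refine orth_comm nd (fun Z hZ => ?_) hvo (skew_sub hXs huU.2)
    have h5 : (X - u) * Z - Z * (X - u) = (X * Z - Z * X) - (u * Z - Z * u) := by
      rw [sub_mul, mul_sub]
      abel
    rw [h5]
    exact Submodule.sub_mem _ (hst Z hZ) (Ul_br huU hZ)
  have hv0 : X - u = 0 := by
    refine Zz_nd hπ hw hG hI' hV h1 hvz fun y hy => ?_
    obtain ⟨cy, hcy⟩ : ∃ cy, cy = prU Y c y := ⟨_, rfl⟩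
    have hcU : cy ∈ Ul I E := by rw [hcy]; exact prU_mem hob y
    have hyo : ∀ Z ∈ Ul I E, ((y - cy) * Z).trace = 0 := by
      intro Z hZ
      rw [hcy]
      exact prU_orth hob y hZ
    have hyz : y - cy ∈ Zz I E := by
      refine orth_comm nd (fun Z hZ => ?_) hyo (skew_sub hy.2 hcU.2)
      have h5 : (y - cy) * Z - Z * (y - cy) = (y * Z - Z * y) - (cy * Z - Z * cy) := by
        rw [sub_mul, mul_sub]
        abel
      rw [h5, hy.1 Z hZ, sub_self]
      exact Submodule.sub_mem _ (Submodule.zero_mem _) (Ul_br hcU hZ)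
    have h5 : ((X - u) * cy).trace = 0 := hvo cy hcU
    have h6 : (u * (y - cy)).trace = 0 := by
      rw [trace_mul_comm]
      exact hyo u huU
    have h7 : (X * (y - cy)).trace = 0 := by
      have hc : Commute X (y - cy) := hcz _ hyz
      exact (Matrix.isNilpotent_trace_of_isNilpotent (hc.isNilpotent_mul_right hX)).eq_zero
    have h8 : (X - u) * y = (X - u) * cy + (X * (y - cy) - u * (y - cy)) := by
      rw [sub_mul, sub_mul, mul_sub, mul_sub]
      abel
    rw [h8, trace_add, trace_sub, h5, h6, h7, sub_zero, add_zero]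
  have hXU : X ∈ Ul I E := by
    rw [sub_eq_zero.1 hv0]
    exact huU
  refine ⟨?_, fun p hp => ?_⟩
  · have h5 := congrArg det (ue_inv hX s)
    rw [det_mul, det_one] at h5
    exact IsUnit.of_mul_eq_one _ h5
  · rw [← pevC]
    refine exp_mem' hG.1 hX hXU.1 s _ fun g hg => ?_
    rw [pevC]
    exact hg.2 p hp

end Pool.Agent.MT100A.H64
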