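import Pool.Agent.MT100A.Defs
import Pool.Agent.Helper46_MTG.Stab
import Pool.Agent.Helper46_MTGO.PosE

/-! MT100-A, module LIE: exponentials of nilpotent matrices. -/

set_option autoImplicit false
set_option linter.unusedSectionVars false

namespace Pool.Agent.MT100A.H64

open MvPolynomial Matrix Module Pool.Agent.Helper78_MT Pool.Agent.Helper3_MT
  Pool.Agent.Helper46_MT Pool.Agent.MT100 Pool.Agent.MT100G.H46 Pool.Agent.MT100GO.H46

variable {d : Type} [Fintype d] [DecidableEq d]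

theorem pow_card {X : Matrix d d ℂ} (h : IsNilpotent X) {t : ℕ} (ht : Fintype.card d ≤ t) :
    X ^ t = 0 := by
  have h1 : X.charpoly - Polynomial.X ^ Fintype.card d = 0 :=
    (Matrix.isNilpotent_charpoly_sub_pow_of_isNilpotent h).eq_zero
  have h2 := Matrix.aeval_self_charpoly X
  rw [sub_eq_zero.mp h1, map_pow, Polynomial.aeval_X] at h2
  exact pow_eq_zero_of_le ht h2

theorem ue_big {X : Matrix d d ℂ} (h : IsNilpotent X) {N : ℕ} (hN : Fintype.card d ≤ N) (s : ℂ) :
    ue X s = ∑ t ∈ Finset.range N, ((t.factorial : ℂ)⁻¹ * s ^ t) • X ^ t := by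
  unfold ue
  refine Finset.sum_subset (Finset.range_subset_range.2 hN) fun t _ ht => ?_
  rw [Finset.mem_range, not_lt] at ht
  rw [pow_card h ht, smul_zero]

theorem ue_eq {X : Matrix d d ℂ} (h : IsNilpotent X) (s : ℂ) :
    ue X s = IsNilpotent.exp (s • X) := by
  have h1 : (s • X) ^ Fintype.card d = 0 := by rw [smul_pow, pow_card h le_rfl, smul_zero]
  rw [IsNilpotent.exp_eq_sum h1]
  unfold ue
  refine Finset.sum_congr rfl fun t _ => ?_
  rw [smul_pow, mul_smul]
  have e : ((t.factorial : ℂ)⁻¹) = algebraMap ℚ ℂ ((t.factorial : ℚ)⁻¹) := by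
    rw [map_inv₀, map_natCast]
  rw [e, algebraMap_smul]

theorem ue_mul {X : Matrix d d ℂ} (h : IsNilpotent X) (s t : ℂ) :
    ue X s * ue X t = ue X (s + t) := by
  have hc : Commute (s • X) (t • X) := ((Commute.refl X).smul_left s).smul_right t
  rw [ue_eq h, ue_eq h, ue_eq h, add_smul, IsNilpotent.exp_add_of_commute hc (h.smul s) (h.smul t)]

theorem ue_zero {X : Matrix d d ℂ} (h : IsNilpotent X) : ue X 0 = 1 := by
  rw [ue_eq h, zero_smul, IsNilpotent.exp_zero]

theorem ue_neg {X : Matrix d d ℂ} (h : IsNilpotent X) (s : ℂ) : ue (-X) s = ue X (-s) := by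
  rw [ue_eq h, ue_eq h.neg, smul_neg, neg_smul]

theorem ue_inv {X : Matrix d d ℂ} (h : IsNilpotent X) (s : ℂ) : ue X s * ue X (-s) = 1 := by
  rw [ue_mul h, add_neg_cancel, ue_zero h]

/-- the coefficient of the first power of the parameter -/
theorem coeff_lin {M : Type*} [AddCommGroup M] [Module ℂ M] (U : Submodule ℂ M)
    (B : Matrix d d ℂ →ₗ[ℂ] Matrix d d ℂ →ₗ[ℂ] M) {X₁ X₂ : Matrix d d ℂ} (h1 : IsNilpotent X₁)
    (h2 : IsNilpotent X₂) (m0 : M) (h : ∀ s : ℂ, B (ue X₁ s) (ue X₂ s) - m0 ∈ U) :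
    B X₁ 1 + B 1 X₂ ∈ U := by
  by_contra hnot
  obtain ⟨f, hf, hle⟩ := Submodule.exists_le_ker_of_notMem hnot
  obtain ⟨N, hN⟩ : ∃ N, N = Fintype.card d := ⟨_, rfl⟩
  have hP : ((∑ i ∈ Finset.range (N + 2), ∑ j ∈ Finset.range (N + 2),
      Polynomial.C (((i.factorial : ℂ)⁻¹ * (j.factorial : ℂ)⁻¹) * f (B (X₁ ^ i) (X₂ ^ j))) *
        Polynomial.X ^ (i + j)) - Polynomial.C (f m0) : Polynomial ℂ) = 0 := by
    apply poly_zero_of_eval
    intro s _
    have h3 : f (B (ue X₁ s) (ue X₂ s) - m0) = 0 := hle (h s)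
    rw [ue_big h1 (by omega : Fintype.card d ≤ N + 2), ue_big h2 (by omega :
      Fintype.card d ≤ N + 2), map_sub] at h3
    rw [map_sum B, LinearMap.sum_apply, map_sum f] at h3
    rw [Polynomial.eval_sub, Polynomial.eval_C, ← h3, Polynomial.eval_finsetSum]
    congr 1
    refine Finset.sum_congr rfl fun i _ => ?_
    rw [Polynomial.eval_finsetSum, map_sum, map_sum]
    refine Finset.sum_congr rfl fun j _ => ?_
    rw [Polynomial.eval_mul, Polynomial.eval_C, Polynomial.eval_pow, Polynomial.eval_X,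
      map_smul B, LinearMap.smul_apply, map_smul f, map_smul (B (X₁ ^ i)), map_smul f, smul_eq_mul,
      smul_eq_mul, pow_add]
    ring
  have h3 := congrArg (fun P : Polynomial ℂ => P.coeff 1) hP
  simp only [Polynomial.coeff_sub, Polynomial.finsetSum_coeff, Polynomial.coeff_C_mul,
    Polynomial.coeff_X_pow, Polynomial.coeff_zero] at h3
  rw [Finset.sum_range_succ', Finset.sum_range_succ'] at h3
  have e1 : ∑ i ∈ Finset.range N, ∑ j ∈ Finset.range (N + 2),
      (((i + 1 + 1).factorial : ℂ)⁻¹ * (j.factorial : ℂ)⁻¹ * f (B (X₁ ^ (i + 1 + 1)) (X₂ ^ j))) *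
        (if 1 = i + 1 + 1 + j then (1 : ℂ) else 0) = 0 := by
    refine Finset.sum_eq_zero fun i _ => Finset.sum_eq_zero fun j _ => ?_
    rw [if_neg (by omega), mul_zero]
  have e2 : ∑ j ∈ Finset.range (N + 2),
      (((0 + 1).factorial : ℂ)⁻¹ * (j.factorial : ℂ)⁻¹ * f (B (X₁ ^ (0 + 1)) (X₂ ^ j))) *
        (if 1 = 0 + 1 + j then (1 : ℂ) else 0) = f (B X₁ 1) := by
    rw [Finset.sum_eq_single 0]
    · simp
    · intro j _ hj
      rw [if_neg (by omega), mul_zero]
    · intro hj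
      exact absurd (Finset.mem_range.2 (by omega)) hj
  have e3 : ∑ j ∈ Finset.range (N + 2),
      ((Nat.factorial 0 : ℂ)⁻¹ * (j.factorial : ℂ)⁻¹ * f (B (X₁ ^ 0) (X₂ ^ j))) *
        (if 1 = 0 + j then (1 : ℂ) else 0) = f (B 1 X₂) := by
    rw [Finset.sum_eq_single 1]
    · simp
    · intro j _ hj
      rw [if_neg (by omega), mul_zero]
    · intro hj
      exact absurd (Finset.mem_range.2 (by omega)) hj
  rw [e1, e2, e3, Polynomial.coeff_C, if_neg one_ne_zero, sub_zero, zero_add] at h3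
  apply hf
  rw [map_add]
  exact h3

/-! ### The curve -/

/-- the curve as a matrix of polynomials -/
noncomputable def cu (X : Matrix d d ℂ) : Matrix d d (Polynomial ℂ) := fun i j =>
  ∑ t ∈ Finset.range (Fintype.card d), Polynomial.C ((t.factorial : ℂ)⁻¹ * (X ^ t) i j) *
    Polynomial.X ^ t

theorem cu_eval (X : Matrix d d ℂ) (s : ℂ) : (cu X).map (Polynomial.eval s) = ue X s := by
  ext i j
  simp only [cu, ue, Matrix.map_apply, Polynomial.eval_finsetSum, Polynomial.eval_mul,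
    Polynomial.eval_C, Polynomial.eval_pow, Polynomial.eval_X, Matrix.sum_apply, Matrix.smul_apply,
    smul_eq_mul]
  refine Finset.sum_congr rfl fun t _ => ?_
  ring

theorem cu_coeff {X : Matrix d d ℂ} (h : IsNilpotent X) (i j : d) (m : ℕ) :
    (cu X i j).coeff m = (m.factorial : ℂ)⁻¹ * (X ^ m) i j := by
  simp only [cu, Polynomial.finsetSum_coeff, Polynomial.coeff_C_mul, Polynomial.coeff_X_pow]
  by_cases hm : m < Fintype.card d
  · rw [Finset.sum_eq_single m]
    · rw [if_pos rfl, mul_one]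
    · intro t _ ht
      rw [if_neg (Ne.symm ht), mul_zero]
    · intro hm'
      exact absurd (Finset.mem_range.2 hm) hm'
  · rw [pow_card h (not_lt.1 hm), Matrix.zero_apply, mul_zero]
    refine Finset.sum_eq_zero fun t ht => ?_
    rw [Finset.mem_range] at ht
    rw [if_neg (by omega), mul_zero]

theorem cu_deriv {X : Matrix d d ℂ} (h : IsNilpotent X) (i j : d) :
    (1 : Polynomial ℂ) * Polynomial.derivative (cu X i j) = ∑ k, X k j • cu X i k := by
  ext m
  rw [one_mul, Polynomial.coeff_derivative, cu_coeff h, Polynomial.finsetSum_coeff]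
  simp only [Polynomial.coeff_smul, cu_coeff h, smul_eq_mul]
  rw [pow_succ, Matrix.mul_apply, Finset.mul_sum, Finset.sum_mul, Nat.factorial_succ]
  refine Finset.sum_congr rfl fun k _ => ?_
  have h1 : ((m : ℂ) + 1) ≠ 0 := Nat.cast_add_one_ne_zero m
  have h2 : ((m.factorial : ℕ) : ℂ) ≠ 0 := Nat.cast_ne_zero.2 (Nat.factorial_ne_zero m)
  push_cast
  field_simp

theorem exp_mem' {G : Set (Matrix d d ℂ)} (hone : 1 ∈ G) {X : Matrix d d ℂ}
    (hX : IsNilpotent X) (hN : X ∈ lieOf G) (s : ℂ) (p : MvPolynomial (d × d) ℂ)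
    (hp : ∀ g ∈ G, pev g p = 0) : pev (ue X s) p = 0 := by
  have h1 := cu_deriv hX
  have h2 : ∀ k : ℕ, ∃ q : MvPolynomial (d × d) ℂ, (∀ g ∈ G, pev g q = 0) ∧
      Polynomial.derivative^[k] (cev (cu X) p) = cev (cu X) q := by
    intro k
    induction k with
    | zero => exact ⟨p, hp, rfl⟩
    | succ k ih =>
      obtain ⟨q, hq, h⟩ := ih
      refine ⟨dr X q, hN q hq, ?_⟩
      rw [Function.iterate_succ_apply', h, ← cev_deriv h1, one_mul]
  have h3 : cev (cu X) p = 0 := by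
    apply poly_zero_of_deriv
    intro k
    obtain ⟨q, hq, h⟩ := h2 k
    rw [h, cev_eval, cu_eval, ue_zero hX]
    exact hq _ hone
  rw [← cu_eval, ← cev_eval, h3, Polynomial.eval_zero]

end Pool.Agent.MT100A.H64
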