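import Pool.Agent.Helper64_MTA.Ue

/-! MT100-A, module LIE: the centralizer of the Lie algebra. -/

set_option autoImplicit false
set_option linter.unusedSectionVars false

namespace Pool.Agent.MT100A.H64

open MvPolynomial Matrix Module Pool.Agent.Helper78_MT Pool.Agent.Helper3_MT
  Pool.Agent.Helper46_MT Pool.Agent.MT100 Pool.Agent.MT100G.H46 Pool.Agent.MT100GO.H46

open scoped ComplexOrder

variable {n : Type} [Fintype n] [DecidableEq n] {w : ℕ} {E : Matrix n n ℚ}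
  {π : ℕ → Matrix n n ℂ} {V : ℕ → Submodule ℂ (n → ℂ)} {I : Set (MvPolynomial (n × n) ℚ)}

/-- the adjoint of a matrix for a positive definite form -/
theorem nd_gen {M A A' : Matrix n n ℂ} (hM : M.PosDef) (hadj : M * A' = Aᴴ * M)
    (h2 : (A * A').trace = 0) : A = 0 := by
  obtain ⟨S, hS, hSM⟩ := posdef_fac hM
  rw [hSM] at hadj
  have hSd : IsUnit S.det := (isUnit_iff_isUnit_det S).1 hS
  have hSi : S * S⁻¹ = 1 := mul_nonsing_inv S hSd
  have hSi' : S⁻¹ * S = 1 := nonsing_inv_mul S hSd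
  have h3 : (S * A * S⁻¹) * (S * A * S⁻¹)ᴴ = S * (A * A') * S⁻¹ := by
    have e1 : (S⁻¹)ᴴ * Sᴴ = 1 := by rw [← conjTranspose_mul, hSi, conjTranspose_one]
    have e2 : S * A' = (S⁻¹)ᴴ * Aᴴ * Sᴴ * S := by
      calc S * A' = ((S⁻¹)ᴴ * Sᴴ) * (S * A') := by rw [e1, one_mul]
        _ = (S⁻¹)ᴴ * (Sᴴ * S * A') := by simp only [mul_assoc]
        _ = _ := by rw [hadj]; simp only [mul_assoc]
    have e3 : A' = S⁻¹ * (S⁻¹)ᴴ * Aᴴ * Sᴴ * S := by
      calc A' = (S⁻¹ * S) * A' := by rw [hSi', one_mul]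
        _ = S⁻¹ * (S * A') := by simp only [mul_assoc]
        _ = _ := by rw [e2]; simp only [mul_assoc]
    rw [e3, conjTranspose_mul, conjTranspose_mul]
    have e4 : S * (A * (S⁻¹ * (S⁻¹)ᴴ * Aᴴ * Sᴴ * S)) * S⁻¹ =
        S * A * S⁻¹ * ((S⁻¹)ᴴ * (Aᴴ * Sᴴ)) * (S * S⁻¹) := by simp only [mul_assoc]
    rw [e4, hSi, mul_one]
  have h4 : ((S * A * S⁻¹) * (S * A * S⁻¹)ᴴ).trace = 0 := by
    rw [h3, trace_mul_comm, ← mul_assoc, hSi', one_mul]
    exact h2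
  rw [trace_mul_conjTranspose_self_eq_zero_iff] at h4
  calc A = (S⁻¹ * S) * A * (S⁻¹ * S) := by rw [hSi', one_mul, mul_one]
    _ = S⁻¹ * (S * A * S⁻¹) * S := by simp only [mul_assoc]
    _ = 0 := by rw [h4, mul_zero, zero_mul]

/-- descent for subspaces of matrices -/
theorem desc (W : Submodule ℂ (Matrix n n ℂ)) (hW : ∀ (τ : ℂ ≃+* ℂ), ∀ X ∈ W, X.map τ ∈ W)
    {X : Matrix n n ℂ} (hX : X ∈ W) : X ∈ Submodule.span ℂ {Z : Matrix n n ℂ |
      ∃ Y : Matrix n n ℚ, Z = Y.map (algebraMap ℚ ℂ) ∧ Z ∈ W} := by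
  classical
  let c₀ : Matrix n n ℂ →ₗ[ℂ] (n × n → ℂ) :=
    { toFun := fun T p => T p.1 p.2
      map_add' := fun _ _ => rfl
      map_smul' := fun _ _ => rfl }
  let c : Matrix n n ℂ →ₗ[ℂ] (n × n →₀ ℂ) :=
    (Finsupp.linearEquivFunOnFinite ℂ ℂ (n × n)).symm.toLinearMap ∘ₗ c₀
  have hcc : ∀ p m, c p m = p m.1 m.2 := fun p m => rfl
  have hc : Function.Injective c := by
    intro a b hab
    ext i j
    exact congrArg (fun f : (n × n →₀ ℂ) => f (i, j)) hab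
  have hdes := descent c hc W (fun τ w hw => ⟨w.map τ, hW τ w hw, fun i => rfl⟩)
  refine Submodule.span_mono ?_ (hdes X hX)
  rintro v ⟨hv, hvr⟩
  choose f hf using hvr
  have e1 : v = (Matrix.of (fun i j => f (i, j)) : Matrix n n ℚ).map (algebraMap ℚ ℂ) := by
    ext i j
    rw [Matrix.map_apply, Matrix.of_apply, hf, hcc]
  exact ⟨_, e1, hv⟩

theorem map_mul' (τ : ℂ ≃+* ℂ) (A B : Matrix n n ℂ) : (A * B).map τ = A.map τ * B.map τ :=
  Matrix.map_mul (f := (τ : ℂ →+* ℂ))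

theorem skew_aut (τ : ℂ ≃+* ℂ) {X : Matrix n n ℂ}
    (hX : Xᵀ * E.map (algebraMap ℚ ℂ) + E.map (algebraMap ℚ ℂ) * X = 0) :
    (X.map τ)ᵀ * E.map (algebraMap ℚ ℂ) + E.map (algebraMap ℚ ℂ) * X.map τ = 0 := by
  have h1 : (Xᵀ * E.map (algebraMap ℚ ℂ) + E.map (algebraMap ℚ ℂ) * X).map τ =
      (0 : Matrix n n ℂ).map τ := congrArg (fun M : Matrix n n ℂ => M.map τ) hX
  have e2 : ∀ A B : Matrix n n ℂ, (A + B).map τ = A.map τ + B.map τ := by
    intro A B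
    ext i j
    simp
  rw [Matrix.map_zero _ (map_zero τ), e2, map_mul', map_mul', rat_map] at h1
  exact h1

theorem Ul_aut (τ : ℂ ≃+* ℂ) {X : Matrix n n ℂ} (hX : X ∈ Ul I E) : X.map τ ∈ Ul I E :=
  ⟨lie_aut τ hX.1, skew_aut τ hX.2⟩

/-- the centralizer of the Lie algebra in the Lie algebra of the isometries -/
def Zz (I : Set (MvPolynomial (n × n) ℚ)) (E : Matrix n n ℚ) : Submodule ℂ (Matrix n n ℂ) where
  carrier := {z | (∀ Z ∈ Ul I E, z * Z = Z * z) ∧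
    zᵀ * E.map (algebraMap ℚ ℂ) + E.map (algebraMap ℚ ℂ) * z = 0}
  zero_mem' := ⟨fun Z _ => by rw [zero_mul, mul_zero], by simp⟩
  add_mem' := by
    rintro X Y ⟨h1, h2⟩ ⟨h3, h4⟩
    refine ⟨fun Z hZ => by rw [add_mul, mul_add, h1 Z hZ, h3 Z hZ], ?_⟩
    rw [transpose_add, add_mul, mul_add, add_add_add_comm, h2, h4, add_zero]
  smul_mem' := by
    rintro c X ⟨h1, h2⟩
    refine ⟨fun Z hZ => by rw [smul_mul_assoc, mul_smul_comm, h1 Z hZ], ?_⟩
    rw [transpose_smul, smul_mul_assoc, mul_smul_comm, ← smul_add, h2, smul_zero]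

theorem mem_Zz {z : Matrix n n ℂ} : z ∈ Zz I E ↔ (∀ Z ∈ Ul I E, z * Z = Z * z) ∧
    zᵀ * E.map (algebraMap ℚ ℂ) + E.map (algebraMap ℚ ℂ) * z = 0 := Iff.rfl

theorem Zz_aut (τ : ℂ ≃+* ℂ) {z : Matrix n n ℂ} (hz : z ∈ Zz I E) : z.map τ ∈ Zz I E := by
  refine ⟨fun Z hZ => ?_, skew_aut τ hz.2⟩
  have h1 := hz.1 _ (Ul_aut τ.symm hZ)
  have h2 : (Z.map τ.symm).map τ = Z := by
    ext i j
    simp
  have h3 := congrArg (fun M : Matrix n n ℂ => M.map τ) h1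
  simp only [map_mul', h2] at h3
  exact h3

theorem Ul_br {X Y : Matrix n n ℂ} (hX : X ∈ Ul I E) (hY : Y ∈ Ul I E) :
    X * Y - Y * X ∈ Ul I E := by
  refine ⟨lieOf_br hX.1 hY.1, ?_⟩
  have h1 := eq_neg_of_add_eq_zero_left hX.2
  have h2 := eq_neg_of_add_eq_zero_left hY.2
  obtain ⟨F, hF⟩ : ∃ F, F = E.map (algebraMap ℚ ℂ) := ⟨_, rfl⟩
  rw [← hF] at h1 h2 ⊢
  rw [transpose_sub, transpose_mul, transpose_mul, sub_mul, mul_sub, mul_assoc, mul_assoc, h1, h2,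
    mul_neg, mul_neg, ← mul_assoc, ← mul_assoc, h1, h2, neg_mul, neg_mul, neg_neg, neg_neg,
    mul_assoc, mul_assoc]
  abel

section
variable (h : Proj w E π) (hw : 1 ≤ w) (hG : IsAlgSubgroup I)
  (hI : ∀ z : ℂ, z ≠ 0 → hz w π z ∈ zeros I ℂ)
include h hw hG hI

theorem cross {z : Matrix n n ℂ} (hz : z ∈ Zz I E) {p q : ℕ} (hp : p ≤ w) (hq : q ≤ w)
    (hne : q ≠ p) : π q * z * π p = 0 := by
  have h1 := hz.1 _ (Phi'_mem h hw hG hI)
  have h2 : π q * Phi' w π = ((q : ℂ) - (w : ℂ) / 2) • π q := by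
    unfold Phi' Phi
    rw [mul_sub, h.sum_mul (fun p => (p : ℂ)) hq, mul_smul_comm, mul_one, sub_smul]
  have h3 : Phi' w π * π p = ((p : ℂ) - (w : ℂ) / 2) • π p := by
    unfold Phi' Phi
    rw [sub_mul, h.mul_sum (fun p => (p : ℂ)) hp, smul_mul_assoc, one_mul, sub_smul]
  have h4 : ((q : ℂ) - (w : ℂ) / 2) • (π q * z * π p) =
      ((p : ℂ) - (w : ℂ) / 2) • (π q * z * π p) := by
    calc ((q : ℂ) - (w : ℂ) / 2) • (π q * z * π p)
        = (((q : ℂ) - (w : ℂ) / 2) • π q) * z * π p := by rw [smul_mul_assoc, smul_mul_assoc]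
      _ = π q * (Phi' w π * z) * π p := by rw [← h2]; simp only [mul_assoc]
      _ = π q * (z * Phi' w π) * π p := by rw [h1]
      _ = π q * z * (Phi' w π * π p) := by simp only [mul_assoc]
      _ = _ := by rw [h3, mul_smul_comm]
  rw [← sub_eq_zero, ← sub_smul] at h4
  rcases smul_eq_zero.1 h4 with h5 | h5
  · exfalso
    apply hne
    have h6 : (q : ℂ) = p := by linear_combination h5
    exact_mod_cast h6
  · exact h5

theorem comm_pi {z : Matrix n n ℂ} (hz : z ∈ Zz I E) {q : ℕ} (hq : q ≤ w) :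
    π q * z = z * π q := by
  have e1 : π q * z = π q * z * π q := by
    conv_lhs => rw [← mul_one (π q * z), ← h.sum]
    rw [Finset.mul_sum, Finset.sum_eq_single q]
    · intro p hp hne
      exact cross h hw hG hI hz (Nat.lt_succ_iff.1 (Finset.mem_range.1 hp)) hq (Ne.symm hne)
    · intro hq'
      exact absurd (Finset.mem_range.2 (by omega)) hq'
  have e2 : z * π q = π q * z * π q := by
    conv_lhs => rw [← one_mul (z * π q), ← h.sum]
    rw [Finset.sum_mul, Finset.sum_eq_single q]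
    · rw [mul_assoc]
    · intro p hp hne
      rw [← mul_assoc]
      exact cross h hw hG hI hz hq (Nat.lt_succ_iff.1 (Finset.mem_range.1 hp)) hne
    · intro hq'
      exact absurd (Finset.mem_range.2 (by omega)) hq'
  rw [e1, e2]

theorem comm_C {z : Matrix n n ℂ} (hz : z ∈ Zz I E) : Cw w π * z = z * Cw w π := by
  unfold Cw
  rw [Finset.sum_mul, Finset.mul_sum]
  refine Finset.sum_congr rfl fun p hp => ?_
  rw [smul_mul_assoc, mul_smul_comm, comm_pi h hw hG hI hz (Nat.lt_succ_iff.1 (Finset.mem_range.1 hp))]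

theorem piece {z : Matrix n n ℂ} (hz : z ∈ Zz I E) (hV : PolHodge w E V)
    (h1 : ∀ p x, π p *ᵥ x ∈ V p) (h2 : ∀ p, ∀ x ∈ V p, π p *ᵥ x = x) {p : ℕ} {x : n → ℂ}
    (hx : x ∈ V p) : z *ᵥ x ∈ V p := by
  by_cases hp : p ≤ w
  · have e1 : z *ᵥ x = π p *ᵥ (z *ᵥ x) := by
      conv_lhs => rw [← h2 p x hx]
      rw [mulVec_mulVec, mulVec_mulVec, comm_pi h hw hG hI hz hp]
    rw [e1]
    exact h1 p _
  · rw [hV.top p (by omega), Submodule.mem_bot] at hx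
    rw [hx, mulVec_zero]
    exact Submodule.zero_mem _

/-- the trace form is nondegenerate on the centralizer -/
theorem Zz_nd (hV : PolHodge w E V) (h1 : ∀ p x, π p *ᵥ x ∈ V p) {v : Matrix n n ℂ}
    (hv : v ∈ Zz I E) (h0 : ∀ y ∈ Zz I E, (v * y).trace = 0) : v = 0 := by
  have hvb : v.map (starRingEnd ℂ) ∈ Zz I E := Zz_aut (starRingAut : ℂ ≃+* ℂ) hv
  have hcomm := comm_C h hw hG hI hvb
  have hsk := eq_neg_of_add_eq_zero_left hvb.2
  have htr : (v * -v.map (starRingEnd ℂ)).trace = 0 := h0 _ (Submodule.neg_mem _ hvb)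
  have e1 : vᴴ = (v.map (starRingEnd ℂ))ᵀ := rfl
  rcases Nat.even_or_odd w with he | ho
  · refine nd_gen (gram_even hV he h h1) ?_ htr
    rw [e1, mul_neg, mul_assoc, hcomm, ← mul_assoc, ← neg_mul, ← hsk, mul_assoc]
  · refine nd_gen (gram hV ho h h1) ?_ htr
    rw [e1, mul_neg, neg_mul, neg_neg, mul_assoc, hcomm, ← mul_assoc, mul_neg, ← mul_assoc, hsk,
      neg_mul, neg_neg]

end

end Pool.Agent.MT100A.H64
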