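import Mathlib

set_option autoImplicit false

/-!
The trace of a fixed matrix on a continuous family of invariant subspaces is constant.
-/

namespace Pool.Agent.MTA.H64T

open Matrix

variable {d : Type*} [Fintype d] [DecidableEq d]

/-- The matrix with the given columns. -/
def colM (v : d → (d → ℂ)) : Matrix d d ℂ := Matrix.of fun i a => v a i

lemma colM_unit {v : d → (d → ℂ)} (h : LinearIndependent ℂ v) : IsUnit (colM v) := by
  have h1 : IsUnit (Matrix.of v) := Matrix.linearIndependent_rows_iff_isUnit.1 h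
  have h2 : colM v = (Matrix.of v)ᵀ := rfl
  rw [h2]
  exact (Matrix.isUnit_transpose _).2 h1

lemma colM_single (v : d → (d → ℂ)) (a : d) : (colM v).mulVec (Pi.single a 1) = v a := by
  rw [Matrix.mulVec_single_one]
  rfl

open Classical in
lemma block {v : d → (d → ℂ)} (h : LinearIndependent ℂ v) (Q : Matrix d d ℂ) (A : Set d)
    (N : Matrix A A ℂ) (hN : ∀ a : A, Q.mulVec (v a) = ∑ b : A, N b a • v b) :
    (∀ a b : A, ((colM v)⁻¹ * Q * colM v) a b = N a b) ∧
      ∀ i, i ∉ A → ∀ j, j ∈ A → ((colM v)⁻¹ * Q * colM v) i j = 0 := by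
  have hu : IsUnit (colM v).det := (Matrix.isUnit_iff_isUnit_det _).1 (colM_unit h)
  have h1 : ∀ a : A, ∀ i, ((colM v)⁻¹ * Q * colM v) i a =
      ∑ b : A, N b a * (if i = (b : d) then 1 else 0) := by
    intro a i
    have h2 : ((colM v)⁻¹ * Q * colM v).mulVec (Pi.single (a : d) 1) =
        ∑ b : A, N b a • (Pi.single (b : d) (1 : ℂ) : d → ℂ) := by
      rw [← Matrix.mulVec_mulVec, colM_single, ← Matrix.mulVec_mulVec, hN a,
        Matrix.mulVec_sum]
      refine Finset.sum_congr rfl fun b _ => ?_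
      rw [Matrix.mulVec_smul]
      congr 1
      rw [← colM_single v b, Matrix.mulVec_mulVec, Matrix.nonsing_inv_mul _ hu,
        Matrix.one_mulVec]
    have h3 := congrFun h2 i
    rw [Matrix.mulVec_single_one] at h3
    rw [Matrix.col_apply] at h3
    rw [h3, Finset.sum_apply]
    refine Finset.sum_congr rfl fun b _ => ?_
    rw [Pi.smul_apply, smul_eq_mul, Pi.single_apply]
  constructor
  · intro a b
    rw [h1 b a, Finset.sum_eq_single a]
    · simp
    · intro c _ hc
      rw [if_neg, mul_zero]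
      intro h5
      exact hc (Subtype.ext h5.symm)
    · simp
  · intro i hi j hj
    rw [h1 ⟨j, hj⟩ i]
    apply Finset.sum_eq_zero
    intro b _
    rw [if_neg, mul_zero]
    rintro rfl
    exact hi b.2

/-- The finite set of possible traces. -/
noncomputable def trSet (Q : Matrix d d ℂ) : Finset ℂ :=
  (Q.charpoly.roots.powerset.map Multiset.sum).toFinset

open Classical in
lemma trace_mem {v : d → (d → ℂ)} (h : LinearIndependent ℂ v) (Q : Matrix d d ℂ) (A : Set d)
    (N : Matrix A A ℂ) (hN : ∀ a : A, Q.mulVec (v a) = ∑ b : A, N b a • v b) :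
    N.trace ∈ trSet Q := by
  obtain ⟨h1, h2⟩ := block h Q A N hN
  obtain ⟨u, hu⟩ := colM_unit h
  set K := (colM v)⁻¹ * Q * colM v with hK
  have h3 : K.charpoly = Q.charpoly := by
    rw [hK, ← hu]
    exact Matrix.charpoly_units_conj' u Q
  have h4 : K.charpoly = N.charpoly *
      (Matrix.toSquareBlockProp K (fun i => ¬ (i ∈ A))).charpoly := by
    unfold Matrix.charpoly
    rw [Matrix.twoBlockTriangular_det (charmatrix K) (fun i => i ∈ A)]
    · congr 2
      · ext a b
        by_cases hab : a = b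
        · subst hab
          simp [Matrix.toSquareBlockProp, charmatrix_apply_eq, h1]
        · have hab' : (a : d) ≠ b := fun h5 => hab (Subtype.ext h5)
          simp [Matrix.toSquareBlockProp, charmatrix_apply_ne _ _ _ hab,
            charmatrix_apply_ne _ _ _ hab', h1]
      · ext a b
        by_cases hab : a = b
        · subst hab
          simp [Matrix.toSquareBlockProp, charmatrix_apply_eq]
        · have hab' : (a : d) ≠ b := fun h5 => hab (Subtype.ext h5)
          simp [Matrix.toSquareBlockProp, charmatrix_apply_ne _ _ _ hab,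
            charmatrix_apply_ne _ _ _ hab']
    · intro i hi j hj
      have hij : i ≠ j := by
        rintro rfl
        exact hi hj
      rw [charmatrix_apply_ne _ _ _ hij, h2 i hi j hj]
      simp
  have h5 : N.charpoly ∣ Q.charpoly := by
    rw [← h3, h4]
    exact Dvd.intro _ rfl
  have h6 : N.charpoly.roots ≤ Q.charpoly.roots :=
    Polynomial.roots.le_of_dvd (Matrix.charpoly_monic Q).ne_zero h5
  rw [Matrix.trace_eq_sum_roots_charpoly]
  unfold trSet
  rw [Multiset.mem_toFinset, Multiset.mem_map]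
  exact ⟨N.charpoly.roots, Multiset.mem_powerset.2 h6, rfl⟩

lemma cont_colM {R : ℝ} {per : ℝ → d → (d → ℂ)}
    (hc : ∀ a, ContinuousOn (fun x => per x a) (Set.Ioi R)) :
    ContinuousOn (fun x => colM (per x)) (Set.Ioi R) := by
  refine continuousOn_pi.2 fun i => ?_
  refine continuousOn_pi.2 fun a => ?_
  exact (continuous_apply i).comp_continuousOn (hc a)

lemma cont_inv {R : ℝ} {per : ℝ → d → (d → ℂ)}
    (hc : ∀ a, ContinuousOn (fun x => per x a) (Set.Ioi R))
    (hli : ∀ x, R < x → LinearIndependent ℂ (per x)) :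
    ContinuousOn (fun x => (colM (per x))⁻¹) (Set.Ioi R) := by
  have h1 := cont_colM hc
  have h2 : (fun x => (colM (per x))⁻¹) =
      fun x => (colM (per x)).det⁻¹ • (colM (per x)).adjugate := by
    funext x
    rw [Matrix.inv_def, Ring.inverse_eq_inv']
  rw [h2]
  have h3 : ContinuousOn (fun x => (colM (per x)).det) (Set.Ioi R) :=
    (continuous_id.matrix_det).comp_continuousOn h1
  have h4 : ContinuousOn (fun x => (colM (per x)).adjugate) (Set.Ioi R) :=
    (continuous_id.matrix_adjugate).comp_continuousOn h1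
  refine ContinuousOn.smul (h3.inv₀ ?_) h4
  intro x hx
  exact ((Matrix.isUnit_iff_isUnit_det _).1 (colM_unit (hli x hx))).ne_zero

open Classical in
/-- The trace is constant, matrix form. -/
theorem trc {R : ℝ} {per : ℝ → d → (d → ℂ)}
    (hc : ∀ a, ContinuousOn (fun x => per x a) (Set.Ioi R))
    (hli : ∀ x, R < x → LinearIndependent ℂ (per x)) (A : Set d) (Q : Matrix d d ℂ)
    (hQ : ∀ x, R < x → ∀ a ∈ A, Q.mulVec (per x a) ∈ Submodule.span ℂ (per x '' A)) :
    ∃ c : ℂ, ∀ x, R < x → ∀ N : Matrix A A ℂ,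
      (∀ a : A, Q.mulVec (per x a) = ∑ b : A, N b a • per x b) → N.trace = c := by
  set τ : ℝ → ℂ := fun x => ∑ a : A, ((colM (per x))⁻¹ * Q * colM (per x)) a a with hτ
  have hex : ∀ x, R < x → ∃ N : Matrix A A ℂ,
      ∀ a : A, Q.mulVec (per x a) = ∑ b : A, N b a • per x b := by
    intro x hx
    have h1 : ∀ a : A, ∃ c : A → ℂ, ∑ b : A, c b • per x b = Q.mulVec (per x a) := by
      intro a
      have h2 := hQ x hx a a.2
      rw [Set.image_eq_range] at h2
      exact (Submodule.mem_span_range_iff_exists_fun ℂ).1 h2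
    choose c hc' using h1
    exact ⟨fun b a => c a b, fun a => (hc' a).symm⟩
  have heq : ∀ x, R < x → ∀ N : Matrix A A ℂ,
      (∀ a : A, Q.mulVec (per x a) = ∑ b : A, N b a • per x b) → N.trace = τ x := by
    intro x hx N hN
    rw [hτ, Matrix.trace]
    refine Finset.sum_congr rfl fun a _ => ?_
    rw [Matrix.diag_apply, (block (hli x hx) Q A N hN).1 a a]
  have hcont : ContinuousOn τ (Set.Ioi R) := by
    have h1 : ContinuousOn (fun x => (colM (per x))⁻¹ * Q * colM (per x)) (Set.Ioi R) :=
      ((cont_inv hc hli).mul continuousOn_const).mul (cont_colM hc)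
    apply continuousOn_finsetSum
    intro a _
    have h2 : Continuous (fun K : Matrix d d ℂ => K a a) :=
      (continuous_apply (a : d)).comp (continuous_apply (a : d))
    exact h2.comp_continuousOn h1
  have hmaps : Set.MapsTo τ (Set.Ioi R) (trSet Q : Set ℂ) := by
    intro x hx
    obtain ⟨N, hN⟩ := hex x hx
    rw [← heq x hx N hN]
    exact trace_mem (hli x hx) Q A N hN
  refine ⟨τ (R + 1), fun x hx N hN => ?_⟩
  rw [heq x hx N hN]
  exact isPreconnected_Ioi.constant_of_mapsTo (trSet Q).finite_toSet.isDiscrete hcont hmaps hx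
    (Set.mem_Ioi.2 (by linarith))

open Classical in
/-- The trace of the restriction is the trace of the matrix in the given basis. -/
theorem trace_restrict {v : d → (d → ℂ)} (hli : LinearIndependent ℂ v) (A : Set d)
    (Q : Matrix d d ℂ) (N : Matrix A A ℂ)
    (hN : ∀ a : A, Q.mulVec (v a) = ∑ b : A, N b a • v b)
    (W : Submodule ℂ (d → ℂ)) (hW : W = Submodule.span ℂ (v '' A))
    (h : ∀ u ∈ W, Matrix.toLin' Q u ∈ W) :
    LinearMap.trace ℂ W ((Matrix.toLin' Q).restrict h) = N.trace := by
  rw [Set.image_eq_range] at hW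
  subst hW
  have hl : LinearIndependent ℂ (fun a : A => v a) :=
    hli.comp _ Subtype.val_injective
  set b := Module.Basis.span hl with hb
  rw [LinearMap.trace_eq_matrix_trace ℂ b]
  have hK : ∀ a : A, Q.mulVec (v a) =
      ∑ c : A, (LinearMap.toMatrix b b ((Matrix.toLin' Q).restrict h)) c a • v c := by
    intro a
    have h1 := b.sum_repr (((Matrix.toLin' Q).restrict h) (b a))
    have h2 := congrArg Subtype.val h1
    have hbv : ∀ a : A, ((b a : Submodule.span ℂ (Set.range fun a : A => v a)) : d → ℂ) =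
        v a := by
      intro a
      rw [hb, Module.Basis.span_apply]
    rw [LinearMap.coe_restrict_apply, hbv, Matrix.toLin'_apply] at h2
    rw [← h2]
    simp only [AddSubmonoidClass.coe_finsetSum, SetLike.val_smul, hbv, LinearMap.toMatrix_apply]
  rw [Matrix.trace, Matrix.trace]
  refine Finset.sum_congr rfl fun a _ => ?_
  rw [Matrix.diag_apply, Matrix.diag_apply, ← (block hli Q A _ hK).1 a a,
    ← (block hli Q A N hN).1 a a]

lemma exN {v : d → (d → ℂ)} (A : Set d) [Fintype A] (Q : Matrix d d ℂ)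
    (hQ : ∀ a ∈ A, Q.mulVec (v a) ∈ Submodule.span ℂ (v '' A)) :
    ∃ N : Matrix A A ℂ, ∀ a : A, Q.mulVec (v a) = ∑ b : A, N b a • v b := by
  have h1 : ∀ a : A, ∃ c : A → ℂ, ∑ b : A, c b • v b = Q.mulVec (v a) := by
    intro a
    have h2 := hQ a a.2
    rw [Set.image_eq_range] at h2
    exact (Submodule.mem_span_range_iff_exists_fun ℂ).1 h2
  choose c hc' using h1
  exact ⟨fun b a => c a b, fun a => (hc' a).symm⟩

open Classical in
/-- The trace is constant, form with the restriction of the linear map. -/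
theorem trc' {R : ℝ} {per : ℝ → d → (d → ℂ)}
    (hc : ∀ a, ContinuousOn (fun x => per x a) (Set.Ioi R))
    (hli : ∀ x, R < x → LinearIndependent ℂ (per x)) (A : Set d) (Q : Matrix d d ℂ)
    (hQ : ∀ x, R < x → ∀ a ∈ A, Q.mulVec (per x a) ∈ Submodule.span ℂ (per x '' A)) :
    ∃ c : ℂ, ∀ x, R < x → ∀ W : Submodule ℂ (d → ℂ), W = Submodule.span ℂ (per x '' A) →
      ∀ h : ∀ v ∈ W, Matrix.toLin' Q v ∈ W,
        LinearMap.trace ℂ W ((Matrix.toLin' Q).restrict h) = c := by
  obtain ⟨c, hc'⟩ := trc hc hli A Q hQ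
  refine ⟨c, fun x hx W hW h => ?_⟩
  obtain ⟨N, hN⟩ := exN A Q (hQ x hx)
  rw [trace_restrict (hli x hx) A Q N hN W hW h]
  exact hc' x hx N hN

open Classical in
/-- The trace of the product with a projector onto the invariant subspace. -/
theorem trp {v : d → (d → ℂ)} (hli : LinearIndependent ℂ v) (A : Set d)
    (Q : Matrix d d ℂ) (N : Matrix A A ℂ)
    (hN : ∀ a : A, Q.mulVec (v a) = ∑ b : A, N b a • v b) (P : Matrix d d ℂ)
    (hP : P * P = P) (hrange : Set.range P.mulVec = (Submodule.span ℂ (v '' A) : Set (d → ℂ))) :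
    (Q * P).trace = N.trace := by
  set W := Submodule.span ℂ (v '' A) with hW
  have hQW : ∀ u ∈ W, Matrix.toLin' Q u ∈ W := by
    have h1 : W ≤ W.comap (Matrix.toLin' Q) := by
      rw [hW, Submodule.span_le]
      rintro _ ⟨a, ha, rfl⟩
      show Matrix.toLin' Q (v a) ∈ Submodule.span ℂ (v '' A)
      rw [Matrix.toLin'_apply, hN ⟨a, ha⟩]
      refine Submodule.sum_mem _ fun b _ => Submodule.smul_mem _ _ ?_
      exact Submodule.subset_span ⟨b, b.2, rfl⟩
    exact fun u hu => h1 hu
  have hPW : ∀ u, P.mulVec u ∈ W := by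
    intro u
    have h1 : P.mulVec u ∈ Set.range P.mulVec := ⟨u, rfl⟩
    rw [hrange] at h1
    exact h1
  have hPid : ∀ u ∈ W, P.mulVec u = u := by
    intro u hu
    have h1 : u ∈ Set.range P.mulVec := by
      rw [hrange]
      exact hu
    obtain ⟨u', rfl⟩ := h1
    rw [Matrix.mulVec_mulVec, hP]
  have hf : ∀ u, Matrix.toLin' (Q * P) u ∈ W := by
    intro u
    rw [Matrix.toLin'_mul_apply]
    exact hQW _ (hPW u)
  have h1 : LinearMap.trace ℂ W ((Matrix.toLin' (Q * P)).restrict (fun u _ => hf u)) =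
      LinearMap.trace ℂ (d → ℂ) (Matrix.toLin' (Q * P)) :=
    LinearMap.trace_restrict_eq_of_forall_mem W _ hf
  have h2 : (Matrix.toLin' (Q * P)).restrict (fun u _ => hf u) =
      (Matrix.toLin' Q).restrict hQW := by
    ext1 u
    apply Subtype.ext
    rw [LinearMap.coe_restrict_apply, LinearMap.coe_restrict_apply, Matrix.toLin'_mul_apply,
      Matrix.toLin'_apply P, hPid u u.2]
  rw [h2, trace_restrict hli A Q N hN W hW hQW] at h1
  rw [h1, Matrix.trace_toLin'_eq]

end Pool.Agent.MTA.H64T
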