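import Pool.Agent.MT100A.StmtsL

/-! MT100-A, module JOR: multiplicative Jordan decomposition of a neat matrix. -/

set_option autoImplicit false

namespace Pool.Agent.MT100A.H64

open Matrix Polynomial Pool.Agent.MT100A

/-- interpolation polynomials (Chinese remainder theorem) -/
theorem crt (Λ : Finset ℂ) (N : ℕ) (a : ℂ) :
    ∃ p : ℂ[X], (X - C a) ^ N ∣ p - 1 ∧ ∀ c ∈ Λ, c ≠ a → (X - C c) ^ N ∣ p := by
  have hc : IsCoprime ((X - C a) ^ N) (∏ c ∈ Λ.erase a, (X - C c : ℂ[X]) ^ N) := by
    refine IsCoprime.prod_right fun c hc => ?_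
    refine IsCoprime.pow ?_
    exact Polynomial.isCoprime_X_sub_C_of_isUnit_sub
      (isUnit_iff_ne_zero.mpr (sub_ne_zero.mpr (Finset.ne_of_mem_erase hc).symm))
  obtain ⟨u, v, h⟩ := hc
  refine ⟨v * ∏ c ∈ Λ.erase a, (X - C c : ℂ[X]) ^ N, ⟨-u, by linear_combination h⟩,
    fun c hc hca => ?_⟩
  exact Dvd.dvd.mul_left (Finset.dvd_prod_of_mem (fun c => (X - C c : ℂ[X]) ^ N)
    (Finset.mem_erase.mpr ⟨hca, hc⟩)) _

/-- commuting operators which are nilpotent on a vector -/
theorem two_nil {V : Type*} [AddCommGroup V] [Module ℂ V] (P Q : Module.End ℂ V)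
    (hc : P * Q = Q * P) : ∀ (k m n : ℕ) (v : V), m + n = k → (P ^ m) v = 0 → (Q ^ n) v = 0 →
      ((P + Q) ^ k) v = 0 := by
  have hcm : Commute P Q := hc
  intro k
  induction k with
  | zero =>
    intro m n v hk hP hQ
    have hm : m = 0 := by omega
    subst hm
    simpa using hP
  | succ k ih =>
    intro m n v hk hP hQ
    rcases Nat.eq_zero_or_pos m with rfl | hm
    · have hv : v = 0 := by simpa using hP
      rw [hv, map_zero]
    rcases Nat.eq_zero_or_pos n with rfl | hn
    · have hv : v = 0 := by simpa using hQ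
      rw [hv, map_zero]
    obtain ⟨m', rfl⟩ : ∃ m', m = m' + 1 := ⟨m - 1, by omega⟩
    obtain ⟨n', rfl⟩ : ∃ n', n = n' + 1 := ⟨n - 1, by omega⟩
    rw [pow_succ, Module.End.mul_apply, LinearMap.add_apply, map_add]
    have h1 : ((P + Q) ^ k) (P v) = 0 := by
      refine ih m' (n' + 1) (P v) (by omega) ?_ ?_
      · rw [← Module.End.mul_apply, ← pow_succ]
        exact hP
      · rw [← Module.End.mul_apply, ← (hcm.pow_right (n' + 1)).eq, Module.End.mul_apply, hQ, map_zero]
    have h2 : ((P + Q) ^ k) (Q v) = 0 := by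
      refine ih (m' + 1) n' (Q v) (by omega) ?_ ?_
      · rw [← Module.End.mul_apply, (hcm.pow_left (m' + 1)).eq, Module.End.mul_apply, hP, map_zero]
      · rw [← Module.End.mul_apply, ← pow_succ]
        exact hQ
    rw [h1, h2, add_zero]

/-- an invariant subspace is invariant under polynomials -/
theorem aeval_mem {V : Type*} [AddCommGroup V] [Module ℂ V] (T : Module.End ℂ V)
    (W : Submodule ℂ V) (hW : ∀ v ∈ W, T v ∈ W) (q : ℂ[X]) : ∀ v ∈ W, aeval T q v ∈ W := by
  have hpow : ∀ n : ℕ, ∀ v ∈ W, (T ^ n) v ∈ W := by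
    intro n
    induction n with
    | zero => intro v hv; simpa using hv
    | succ n ih =>
      intro v hv
      rw [pow_succ, Module.End.mul_apply]
      exact ih _ (hW v hv)
  induction q using Polynomial.induction_on' with
  | add p q hp hq =>
    intro v hv
    rw [map_add, LinearMap.add_apply]
    exact W.add_mem (hp v hv) (hq v hv)
  | monomial n a =>
    intro v hv
    rw [aeval_monomial, Module.End.mul_apply, Module.algebraMap_end_apply]
    exact W.smul_mem _ (hpow n v hv)

variable {d : Type} [Fintype d] [DecidableEq d]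

/-- a polynomial which vanishes at all the eigenvalues to high order annihilates the matrix -/
theorem ann (h : Matrix d d ℂ) (f : ℂ[X])
    (hf : ∀ c ∈ h.charpoly.roots.toFinset, (X - C c) ^ (Fintype.card d) ∣ f) : aeval h f = 0 := by
  have h1 : (∏ c ∈ h.charpoly.roots.toFinset, (X - C c : ℂ[X]) ^ (Fintype.card d)) ∣ f := by
    refine Finset.prod_dvd_of_coprime ?_ hf
    intro a _ b _ hab
    refine IsCoprime.pow ?_
    exact Polynomial.isCoprime_X_sub_C_of_isUnit_sub
      (isUnit_iff_ne_zero.mpr (sub_ne_zero.mpr hab))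
  have h2 : h.charpoly ∣ ∏ c ∈ h.charpoly.roots.toFinset, (X - C c : ℂ[X]) ^ (Fintype.card d) := by
    have hs := (IsAlgClosed.splits h.charpoly).eq_prod_roots_of_monic (Matrix.charpoly_monic h)
    have e : (h.charpoly.roots.map fun a => (X - C a : ℂ[X])).prod =
        ∏ c ∈ h.charpoly.roots.toFinset, (X - C c : ℂ[X]) ^ (h.charpoly.roots.count c) :=
      Finset.prod_multiset_map_count _ _
    have h3 : (∏ c ∈ h.charpoly.roots.toFinset, (X - C c : ℂ[X]) ^ (h.charpoly.roots.count c)) ∣
        ∏ c ∈ h.charpoly.roots.toFinset, (X - C c : ℂ[X]) ^ (Fintype.card d) := by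
      refine Finset.prod_dvd_prod_of_dvd _ _ fun c _ => pow_dvd_pow _ ?_
      refine (Multiset.count_le_card _ _).trans ?_
      rw [← Matrix.charpoly_natDegree_eq_dim h]
      exact Polynomial.card_roots' _
    rw [← e, ← hs] at h3
    exact h3
  obtain ⟨g, rfl⟩ := h2.trans h1
  rw [map_mul, Matrix.aeval_self_charpoly, zero_mul]

/-- spectral projections -/
theorem spec (h : Matrix d d ℂ) :
    ∃ (n N : ℕ) (lam : Fin n → ℂ) (π : Fin n → Matrix d d ℂ),
      (∀ a, h.charpoly.IsRoot (lam a)) ∧ (∀ a, π a * π a = π a) ∧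
      (∀ a b, a ≠ b → π a * π b = 0) ∧ ∑ a, π a = 1 ∧ (∀ a, π a * h = h * π a) ∧
      ∀ a, (h - lam a • (1 : Matrix d d ℂ)) ^ N * π a = 0 := by
  classical
  set Λ := h.charpoly.roots.toFinset with hΛ
  set N := Fintype.card d
  have hne : h.charpoly ≠ 0 := (Matrix.charpoly_monic h).ne_zero
  choose p hp1 hp2 using fun a : ℂ => crt Λ N a
  let e : Fin Λ.card ≃ {x // x ∈ Λ} := Λ.equivFin.symm
  have hinj : ∀ a b : Fin Λ.card, a ≠ b → (e a : ℂ) ≠ (e b : ℂ) := fun a b hab hE =>
    hab (e.injective (Subtype.ext hE))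
  have hsur : ∀ c ∈ Λ, ∃ a : Fin Λ.card, (e a : ℂ) = c := fun c hc =>
    ⟨e.symm ⟨c, hc⟩, by rw [Equiv.apply_symm_apply]⟩
  have comm : ∀ f g : ℂ[X], aeval h f * aeval h g = aeval h g * aeval h f := fun f g => by
    rw [← map_mul, ← map_mul, mul_comm]
  refine ⟨Λ.card, N, fun a => (e a : ℂ), fun a => aeval h (p (e a : ℂ)), fun a => ?_, fun a => ?_,
    fun a b hab => ?_, ?_, fun a => ?_, fun a => ?_⟩
  · have h5 : ∀ c ∈ Λ, h.charpoly.IsRoot c := fun c hc =>
      (Polynomial.mem_roots hne).mp (Multiset.mem_toFinset.mp hc)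
    exact h5 _ (e a).2
  · rw [← map_mul, ← sub_eq_zero, ← map_sub]
    refine ann h _ fun c hc => ?_
    by_cases hca : c = e a
    · rw [hca]
      have : p (e a : ℂ) * p (e a : ℂ) - p (e a : ℂ) = (p (e a : ℂ) - 1) * p (e a : ℂ) := by ring
      rw [this]
      exact Dvd.dvd.mul_right (hp1 _) _
    · have : p (e a : ℂ) * p (e a : ℂ) - p (e a : ℂ) = p (e a : ℂ) * (p (e a : ℂ) - 1) := by ring
      rw [this]
      exact Dvd.dvd.mul_right (hp2 _ c hc hca) _
  · rw [← map_mul]
    refine ann h _ fun c hc => ?_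
    by_cases hca : c = e a
    · exact Dvd.dvd.mul_left (hp2 _ c hc (by rw [hca]; exact hinj a b hab)) _
    · exact Dvd.dvd.mul_right (hp2 _ c hc hca) _
  · rw [← map_sum, ← sub_eq_zero, ← map_one (aeval h : ℂ[X] →ₐ[ℂ] Matrix d d ℂ), ← map_sub]
    refine ann h _ fun c hc => ?_
    obtain ⟨a, rfl⟩ := hsur c hc
    rw [← Finset.add_sum_erase _ _ (Finset.mem_univ a), add_sub_right_comm]
    refine dvd_add (hp1 _) (Finset.dvd_sum fun b hb => hp2 _ _ (e a).2 ?_)
    exact hinj a b (Finset.ne_of_mem_erase hb).symm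
  · have := comm (p (e a : ℂ)) X
    rwa [aeval_X] at this
  · have e1 : h - (e a : ℂ) • (1 : Matrix d d ℂ) = aeval h (X - C (e a : ℂ)) := by
      rw [map_sub, aeval_X, aeval_C, Algebra.algebraMap_eq_smul_one]
    rw [e1, ← map_pow, ← map_mul]
    refine ann h _ fun c hc => ?_
    by_cases hca : c = e a
    · rw [hca]
      exact Dvd.intro _ rfl
    · exact Dvd.dvd.mul_left (hp2 _ c hc hca) _

/-- a subspace which is stable under `A ↦ h A h⁻¹` is stable under the operators
`∑ f (λ_a / λ_b) π_a A π_b` -/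
theorem stab (h h' : Matrix d d ℂ) (hh : h * h' = 1) (hh' : h' * h = 1) {n N : ℕ} (lam : Fin n → ℂ)
    (hl : ∀ a, lam a ≠ 0) (π : Fin n → Matrix d d ℂ) (hc : ∀ a, π a * h = h * π a)
    (hs : ∑ a, π a = 1) (hN : ∀ a, (h - lam a • (1 : Matrix d d ℂ)) ^ N * π a = 0)
    (W : Submodule ℂ (Matrix d d ℂ)) (hW : ∀ A ∈ W, h * A * h' ∈ W) (f : ℂ → ℂ) :
    ∀ A ∈ W, ∑ a, ∑ b, f (lam a / lam b) • (π a * A * π b) ∈ W := by
  classical
  set L : Module.End ℂ (Matrix d d ℂ) := LinearMap.mulLeft ℂ h with hL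
  set R : Module.End ℂ (Matrix d d ℂ) := LinearMap.mulRight ℂ h' with hR
  have hLR : L * R = R * L := by
    ext1 A
    simp only [Module.End.mul_apply, hL, hR, LinearMap.mulLeft_apply, LinearMap.mulRight_apply,
      mul_assoc]
  set T : Module.End ℂ (Matrix d d ℂ) := L * R with hT
  have hTA : ∀ A, T A = h * A * h' := fun A => by
    simp only [hT, Module.End.mul_apply, hL, hR, LinearMap.mulLeft_apply, LinearMap.mulRight_apply,
      mul_assoc]
  have hc' : ∀ a, π a * h' = h' * π a := fun a => by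
    calc π a * h' = h' * h * (π a * h') := by rw [hh', one_mul]
      _ = h' * (h * π a) * h' := by simp only [mul_assoc]
      _ = h' * (π a * h) * h' := by rw [hc]
      _ = h' * π a * (h * h') := by simp only [mul_assoc]
      _ = h' * π a := by rw [hh, mul_one]
  have key : ∀ a b A, ((T - algebraMap ℂ (Module.End ℂ (Matrix d d ℂ)) (lam a / lam b)) ^ (N + N))
      (π a * A * π b) = 0 := by
    intro a b A
    set Lo : Module.End ℂ (Matrix d d ℂ) := LinearMap.mulLeft ℂ (h - lam a • (1 : Matrix d d ℂ))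
      with hLo
    set Ro : Module.End ℂ (Matrix d d ℂ) :=
      LinearMap.mulRight ℂ (h' - (lam b)⁻¹ • (1 : Matrix d d ℂ)) with hRo
    have e1 : T - algebraMap ℂ (Module.End ℂ (Matrix d d ℂ)) (lam a / lam b) =
        Lo * R + lam a • Ro := by
      ext1 B
      rw [LinearMap.sub_apply, hTA, Module.algebraMap_end_apply]
      simp only [LinearMap.add_apply, Module.End.mul_apply, LinearMap.smul_apply, hLo, hR, hRo,
        LinearMap.mulLeft_apply, LinearMap.mulRight_apply, sub_mul, mul_sub, smul_mul_assoc, one_mul,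
        mul_smul_comm, mul_one, smul_sub, smul_smul, div_eq_mul_inv, mul_assoc]
      abel
    have hLoR : ∀ B : Matrix d d ℂ, Lo * LinearMap.mulRight ℂ B = LinearMap.mulRight ℂ B * Lo := by
      intro B
      ext1 A
      simp only [Module.End.mul_apply, hLo, LinearMap.mulLeft_apply, LinearMap.mulRight_apply,
        mul_assoc]
    have hRR : R * Ro = Ro * R := by
      ext1 A
      simp only [Module.End.mul_apply, hR, hRo, LinearMap.mulRight_apply, mul_assoc, sub_mul,
        mul_sub, smul_mul_assoc, mul_smul_comm, mul_one]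
    rw [e1]
    refine two_nil _ _ ?_ (N + N) N N _ rfl ?_ ?_
    · rw [mul_smul_comm, smul_mul_assoc, mul_assoc, hRR, ← mul_assoc, hRo, hLoR, mul_assoc]
    · rw [(show Commute Lo R from hLoR h').mul_pow, (((show Commute Lo R from hLoR h').pow_pow N N)).eq,
        Module.End.mul_apply]
      have : (Lo ^ N) (π a * A * π b) = 0 := by
        rw [hLo, LinearMap.pow_mulLeft, LinearMap.mulLeft_apply, mul_assoc (π a), ← mul_assoc, hN,
          zero_mul]
      rw [this, map_zero]
    · rw [_root_.smul_pow, LinearMap.smul_apply]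
      have : (Ro ^ N) (π a * A * π b) = 0 := by
        rw [hRo, LinearMap.pow_mulRight, LinearMap.mulRight_apply, mul_assoc]
        have e2 : h' - (lam b)⁻¹ • (1 : Matrix d d ℂ) =
            -((lam b)⁻¹ • h') * (h - lam b • (1 : Matrix d d ℂ)) := by
          rw [neg_mul, smul_mul_assoc, mul_sub, hh', mul_smul_comm, mul_one, smul_sub, smul_smul,
            inv_mul_cancel₀ (hl b), one_smul]
          abel
        have hcm : Commute (-((lam b)⁻¹ • h')) (h - lam b • (1 : Matrix d d ℂ)) := by
          refine Commute.neg_left (Commute.smul_left ?_ _)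
          refine Commute.sub_right (by rw [commute_iff_eq, hh, hh']) ?_
          exact Commute.smul_right (Commute.one_right _) _
        have hpc : Commute (π b) ((h - lam b • (1 : Matrix d d ℂ)) ^ N) := by
          refine Commute.pow_right (Commute.sub_right (hc b) ?_) N
          exact Commute.smul_right (Commute.one_right _) _
        rw [e2, hcm.mul_pow, hcm.pow_pow N N |>.eq, ← mul_assoc (π b), hpc.eq, hN, zero_mul, mul_zero]
      rw [this, smul_zero]
  -- interpolation
  set Λ : Finset ℂ := Finset.univ.image fun x : Fin n × Fin n => lam x.1 / lam x.2 with hΛ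
  choose p hp1 hp2 using fun a : ℂ => crt Λ (N + N) a
  have hmem : ∀ a b, lam a / lam b ∈ Λ := fun a b =>
    Finset.mem_image.mpr ⟨(a, b), Finset.mem_univ _, rfl⟩
  have kill : ∀ a b A (q : ℂ[X]), (X - C (lam a / lam b)) ^ (N + N) ∣ q →
      aeval T q (π a * A * π b) = 0 := by
    rintro a b A q ⟨g, rfl⟩
    have h6 : aeval T ((X - C (lam a / lam b)) ^ (N + N) * g) = aeval T g *
        (T - algebraMap ℂ (Module.End ℂ (Matrix d d ℂ)) (lam a / lam b)) ^ (N + N) := by
      rw [mul_comm, map_mul (aeval T), map_pow, map_sub, aeval_X, aeval_C]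
    rw [h6, Module.End.mul_apply, key, map_zero]
  intro A hA
  have e3 : ∑ a, ∑ b, f (lam a / lam b) • (π a * A * π b) =
      aeval T (∑ c ∈ Λ, C (f c) * p c) A := by
    have hA1 : A = ∑ a, ∑ b, π a * A * π b := by
      simp_rw [← Finset.mul_sum, hs, mul_one, ← Finset.sum_mul, hs, one_mul]
    conv_rhs => rw [hA1]
    rw [map_sum]
    refine Finset.sum_congr rfl fun a _ => ?_
    rw [map_sum]
    refine Finset.sum_congr rfl fun b _ => ?_
    have h4 : aeval T (∑ c ∈ Λ, C (f c) * p c - C (f (lam a / lam b))) (π a * A * π b) = 0 := by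
      refine kill a b A _ ?_
      rw [← Finset.add_sum_erase _ _ (hmem a b), add_sub_right_comm]
      refine dvd_add ?_ (Finset.dvd_sum fun c hc => ?_)
      · have : C (f (lam a / lam b)) * p (lam a / lam b) - C (f (lam a / lam b)) =
          C (f (lam a / lam b)) * (p (lam a / lam b) - 1) := by ring
        rw [this]
        exact Dvd.dvd.mul_left (hp1 _) _
      · exact Dvd.dvd.mul_left (hp2 _ _ (hmem a b) (Finset.ne_of_mem_erase hc).symm) _
    rw [map_sub, LinearMap.sub_apply, aeval_C, Module.algebraMap_end_apply, sub_eq_zero] at h4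
    exact h4.symm
  rw [e3]
  exact aeval_mem T W (fun B hB => by rw [hTA]; exact hW B hB) _ A hA

/-- a basis of the group generated by the eigenvalues -/
theorem basis (h : Matrix d d ℂ) (hn : Neat h) {n : ℕ} (lam : Fin n → ℂ)
    (hr : ∀ a, h.charpoly.IsRoot (lam a)) (hl : ∀ a, lam a ≠ 0) :
    ∃ (r : ℕ) (x : Fin r → ℂ) (m : Fin r → Fin n → ℤ) (f : Fin r → ℂ → ℂ),
      (∀ j, x j ≠ 0) ∧ (∀ a, lam a = ∏ j, x j ^ m j a) ∧
      ∀ j a b, f j (lam a / lam b) = (m j a : ℂ) - m j b := by
  classical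
  set S : Set ℂˣ := {z : ℂˣ | h.charpoly.IsRoot (z : ℂ)} with hS
  have hne : h.charpoly ≠ 0 := (Matrix.charpoly_monic h).ne_zero
  have hfin : S.Finite := by
    have h1 : ((↑) '' S : Set ℂ).Finite := by
      refine (Polynomial.finite_setOfPred_isRoot hne).subset ?_
      rintro _ ⟨z, hz, rfl⟩
      exact hz
    exact h1.of_finite_image Units.val_injective.injOn
  set G : Subgroup ℂˣ := Subgroup.closure S with hG
  have : Group.FG G := by
    rw [← hfin.coe_toFinset] at hG
    rw [hG]
    exact Group.closure_finset_fg _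
  have : IsMulTorsionFree G := by
    rw [isMulTorsionFree_iff_not_isOfFinOrder]
    intro a ha hfo
    obtain ⟨k, hk, hak⟩ := isOfFinOrder_iff_pow_eq_one.mp hfo
    refine ha (Subtype.ext (hn a.1 a.2 k hk ?_))
    have := congrArg Subtype.val hak
    simpa using this
  have : Module.Finite ℤ (Additive G) := by
    rw [Module.Finite.iff_addGroup_fg]
    infer_instance
  set b := Module.finBasis ℤ (Additive G) with hb
  have hmem : ∀ a, Units.mk0 (lam a) (hl a) ∈ G := fun a =>
    Subgroup.subset_closure (by rw [hS, Set.mem_ofPred_eq, Units.val_mk0]; exact hr a)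
  set g : Fin n → G := fun a => ⟨Units.mk0 (lam a) (hl a), hmem a⟩ with hg
  refine ⟨_, fun j => (((b j).toMul : G) : ℂˣ), fun j a => b.repr (Additive.ofMul (g a)) j,
    fun j c => if hc : ∃ u : G, ((u : ℂˣ) : ℂ) = c then
      ((b.repr (Additive.ofMul hc.choose) j : ℤ) : ℂ) else 0, fun j => Units.ne_zero _, fun a => ?_,
    fun j a b' => ?_⟩
  · have h1 : ∑ j, b.repr (Additive.ofMul (g a)) j • b j = Additive.ofMul (g a) :=
      b.sum_repr _
    have h2 := congrArg (fun z : Additive G => ((z.toMul : G) : ℂˣ)) h1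
    simp only [toMul_sum, toMul_zsmul, toMul_ofMul, Subgroup.val_finsetProd,
      Subgroup.coe_zpow] at h2
    have h3 := congrArg (Units.val) h2
    simp only [Units.coe_prod, Units.val_zpow_eq_zpow_val, hg, Units.val_mk0] at h3
    exact h3.symm
  · have hex : ∃ u : G, ((u : ℂˣ) : ℂ) = lam a / lam b' :=
      ⟨g a * (g b')⁻¹, by
        simp only [hg, Subgroup.coe_mul, Subgroup.coe_inv, Units.val_mul, Units.val_inv_eq_inv_val,
          Units.val_mk0, div_eq_mul_inv]⟩
    have hch : hex.choose = g a * (g b')⁻¹ := by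
      apply Subtype.ext
      apply Units.ext
      rw [hex.choose_spec]
      simp only [hg, Subgroup.coe_mul, Subgroup.coe_inv, Units.val_mul, Units.val_inv_eq_inv_val,
          Units.val_mk0, div_eq_mul_inv]
    simp only [dif_pos hex]
    rw [hch, ofMul_mul, ofMul_inv, map_add, map_neg, Finsupp.add_apply, Finsupp.neg_apply]
    push_cast
    ring

/-- JOR -/
theorem jor : JorStmt := by
  intro d _ _ h hdet hn
  classical
  obtain ⟨n, N, lam, π, hroot, hid, hor, hsum, hcm, hN⟩ := spec h
  have hne : h.charpoly ≠ 0 := (Matrix.charpoly_monic h).ne_zero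
  have hl : ∀ a, lam a ≠ 0 := by
    intro a h0
    have h1 := hroot a
    rw [h0, Polynomial.IsRoot.def, ← Polynomial.coeff_zero_eq_eval_zero] at h1
    have h2 := Matrix.det_eq_sign_charpoly_coeff h
    rw [h1, mul_zero] at h2
    rw [h2] at hdet
    exact not_isUnit_zero hdet
  obtain ⟨r, x, m, f, hx, hlam, hf⟩ := basis h hn lam hroot hl
  have hh : h * h⁻¹ = 1 := Matrix.mul_nonsing_inv h hdet
  have hh' : h⁻¹ * h = 1 := Matrix.nonsing_inv_mul h hdet
  -- the semisimple part and its inverse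
  set S : Matrix d d ℂ := ∑ a, lam a • π a with hS
  set S' : Matrix d d ℂ := ∑ a, (lam a)⁻¹ • π a with hS'
  have hpiS : ∀ (c : Fin n → ℂ) (a : Fin n), π a * ∑ b, c b • π b = c a • π a := by
    intro c a
    rw [Finset.mul_sum, Finset.sum_eq_single a]
    · rw [mul_smul_comm, hid]
    · intro b _ hb
      rw [mul_smul_comm, hor a b hb.symm, smul_zero]
    · exact fun h => absurd (Finset.mem_univ a) h
  have hSpi : ∀ (c : Fin n → ℂ) (a : Fin n), (∑ b, c b • π b) * π a = c a • π a := by
    intro c a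
    rw [Finset.sum_mul, Finset.sum_eq_single a]
    · rw [smul_mul_assoc, hid]
    · intro b _ hb
      rw [smul_mul_assoc, hor b a hb, smul_zero]
    · exact fun h => absurd (Finset.mem_univ a) h
  have hprod : ∀ c c' : Fin n → ℂ, (∀ a, c a * c' a = 1) →
      (∑ a, c a • π a) * (∑ a, c' a • π a) = 1 := by
    intro c c' hcc
    rw [Finset.sum_mul, ← hsum]
    refine Finset.sum_congr rfl fun a _ => ?_
    rw [smul_mul_assoc, hpiS, smul_smul, hcc, one_smul]
  have hSS' : S * S' = 1 := hprod _ _ fun a => mul_inv_cancel₀ (hl a)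
  have hS'S : S' * S = 1 := hprod _ _ fun a => inv_mul_cancel₀ (hl a)
  have hcom : ∀ c : Fin n → ℂ, (∑ a, c a • π a) * h = h * ∑ a, c a • π a := by
    intro c
    rw [Finset.sum_mul, Finset.mul_sum]
    refine Finset.sum_congr rfl fun a _ => ?_
    rw [smul_mul_assoc, mul_smul_comm, hcm]
  have hcom' : ∀ c : Fin n → ℂ, (∑ a, c a • π a) * h⁻¹ = h⁻¹ * ∑ a, c a • π a := by
    intro c
    calc (∑ a, c a • π a) * h⁻¹ = h⁻¹ * (h * ∑ a, c a • π a) * h⁻¹ := by
          rw [← mul_assoc h⁻¹, hh', one_mul]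
      _ = h⁻¹ * (∑ a, c a • π a) * (h * h⁻¹) := by rw [← hcom]; simp only [mul_assoc]
      _ = h⁻¹ * ∑ a, c a • π a := by rw [hh, mul_one]
  set U : Matrix d d ℂ := S' * h with hU
  have hUinv : U⁻¹ = S * h⁻¹ := by
    apply Matrix.inv_eq_right_inv
    rw [hU, mul_assoc, ← mul_assoc h, ← hcom, mul_assoc S, hh, mul_one, hS'S]
  have hUpi : ∀ a, π a * U = U * π a := by
    intro a
    rw [hU, ← mul_assoc, hpiS, mul_assoc, ← hcm, ← mul_assoc, hSpi]
  refine ⟨r, n, π, m, x, U, hid, hor, hsum, hx, ?_, hUpi, ?_, ?_⟩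
  · -- nilpotency
    have hstep : ∀ a, π a * (U - 1) = (lam a)⁻¹ • ((h - lam a • (1 : Matrix d d ℂ)) * π a) := by
      intro a
      rw [mul_sub, mul_one, hU, ← mul_assoc, hpiS, smul_mul_assoc, hcm, sub_mul, smul_sub,
        smul_mul_assoc, one_mul, smul_smul, inv_mul_cancel₀ (hl a), one_smul]
    have hpow : ∀ a (k : ℕ), π a * (U - 1) ^ k =
        ((lam a)⁻¹) ^ k • ((h - lam a • (1 : Matrix d d ℂ)) ^ k * π a) := by
      intro a k
      induction k with
      | zero => simp
      | succ k ih =>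
        rw [pow_succ, ← mul_assoc, ih, smul_mul_assoc, mul_assoc, hstep, mul_smul_comm, smul_smul,
          ← pow_succ, ← mul_assoc, ← pow_succ]
    refine ⟨N, ?_⟩
    calc (U - 1) ^ N = (∑ a, π a) * (U - 1) ^ N := by rw [hsum, one_mul]
      _ = 0 := by
        rw [Finset.sum_mul]
        refine Finset.sum_eq_zero fun a _ => ?_
        rw [hpow, hN, smul_zero]
  · have : ∑ a, (∏ j, x j ^ m j a) • π a = S := by
      rw [hS]
      exact Finset.sum_congr rfl fun a _ => by rw [hlam a]
    rw [this, hU, ← mul_assoc, hSS', one_mul]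
  · intro W hW
    have hst := stab h h⁻¹ hh hh' lam hl π hcm hsum hN W hW
    constructor
    · intro A hA
      have h1 := hst (fun c => c⁻¹) A hA
      have h2 : ∑ a, ∑ b, (lam a / lam b)⁻¹ • (π a * A * π b) = S' * A * S := by
        rw [hS', hS, Finset.sum_mul, Finset.sum_mul]
        refine Finset.sum_congr rfl fun a _ => ?_
        rw [Finset.mul_sum]
        refine Finset.sum_congr rfl fun b _ => ?_
        rw [smul_mul_assoc, smul_mul_assoc, mul_smul_comm, smul_smul, inv_div, div_eq_mul_inv,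
          mul_comm]
      have h3 := hW _ h1
      rw [h2] at h3
      have h4 : U * A * U⁻¹ = h * (S' * A * S) * h⁻¹ := by
        rw [hUinv, hU, hcom, ← hS']
        simp only [mul_assoc]
      rw [h4]
      exact h3
    · intro j A hA
      have h1 := hst (f j) A hA
      have h2 : ∑ a, ∑ b, f j (lam a / lam b) • (π a * A * π b) =
          (∑ a, (m j a : ℂ) • π a) * A - A * ∑ a, (m j a : ℂ) • π a := by
        have e1 : (∑ a, (m j a : ℂ) • π a) * A = ∑ a, ∑ b, (m j a : ℂ) • (π a * A * π b) := by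
          rw [Finset.sum_mul]
          refine Finset.sum_congr rfl fun a _ => ?_
          rw [← Finset.smul_sum, ← Finset.mul_sum, hsum, mul_one, smul_mul_assoc]
        have e2 : A * (∑ a, (m j a : ℂ) • π a) = ∑ a, ∑ b, (m j b : ℂ) • (π a * A * π b) := by
          rw [Finset.sum_comm, Finset.mul_sum]
          refine Finset.sum_congr rfl fun b _ => ?_
          rw [← Finset.smul_sum, ← Finset.sum_mul, ← Finset.sum_mul, hsum, one_mul, mul_smul_comm]
        rw [e1, e2, ← Finset.sum_sub_distrib]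
        refine Finset.sum_congr rfl fun a _ => ?_
        rw [← Finset.sum_sub_distrib]
        refine Finset.sum_congr rfl fun b _ => ?_
        rw [hf, sub_smul]
      rw [← h2]
      exact h1

end Pool.Agent.MT100A.H64
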