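import Pool.Agent.MT100A.StmtsL
import Pool.Agent.Helper3_MT.Aut

/-! MT100-A, module DES: descent of equations to `ℚ`. -/

set_option autoImplicit false

namespace Pool.Agent.MT100A.H64

open Matrix MvPolynomial Pool.Agent.MT100A Pool.Agent.Helper78_MT

/-- the values of the conjugate polynomial -/
theorem pev_aut {d : Type} [Fintype d] [DecidableEq d] (τ : ℂ ≃+* ℂ) (z : Matrix d d ℂ)
    (p : MvPolynomial (d × d) ℂ) :
    pev (z.map τ) (MvPolynomial.map (τ : ℂ →+* ℂ) p) = τ (pev z p) := by
  induction p using MvPolynomial.induction_on with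
  | C a =>
    rw [MvPolynomial.map_C, pev, pev, aeval_C, aeval_C]
    rfl
  | add p q hp hq => rw [map_add, map_add, hp, hq, map_add, map_add]
  | mul_X p i hp =>
    rw [map_mul, map_mul, hp, MvPolynomial.map_X, map_mul, map_mul]
    congr 1
    rw [pev, pev, aeval_X, aeval_X, Matrix.map_apply]

/-- extension of scalars of a linear functional -/
theorem ext_fun {σ : Type} (L : Type) [Field L] (ι : L →+* ℂ)
    (φ : MvPolynomial σ L →ₗ[L] L) :
    ∃ Φ : MvPolynomial σ ℂ →ₗ[ℂ] ℂ, ∀ f : MvPolynomial σ L, Φ (MvPolynomial.map ι f) = ι (φ f) := by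
  refine ⟨(basisMonomials σ ℂ).constr ℂ (fun m => ι (φ (monomial m 1))), fun f => ?_⟩
  induction f using MvPolynomial.induction_on' with
  | monomial m a =>
    have h1 : (MvPolynomial.map ι (monomial m a) : MvPolynomial σ ℂ) =
        ι a • basisMonomials σ ℂ m := by
      rw [MvPolynomial.map_monomial, coe_basisMonomials, smul_monomial, smul_eq_mul, mul_one]
    have h2 : (monomial m a : MvPolynomial σ L) = a • monomial m 1 := by
      rw [smul_monomial, smul_eq_mul, mul_one]
    rw [h1, map_smul, Module.Basis.constr_basis, h2, map_smul, smul_eq_mul, smul_eq_mul, map_mul]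
  | add p q hp hq => rw [map_add, map_add, hp, hq, map_add, map_add]

/-- DES -/
theorem des : DesStmt := by
  intro d _ _ Z hZ L _ _ ι f hf
  classical
  -- the vanishing ideal over the complex numbers
  let W : Submodule ℂ (MvPolynomial (d × d) ℂ) :=
    { carrier := {p | ∀ z ∈ Z, pev z p = 0}
      add_mem' := fun {p q} hp hq z hz => by rw [map_add, hp z hz, hq z hz, add_zero]
      zero_mem' := fun z _ => map_zero _
      smul_mem' := fun a p hp z hz => by rw [map_smul, hp z hz, smul_zero] }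
  have hWm : ∀ p, p ∈ W ↔ ∀ z ∈ Z, pev z p = 0 := fun p => Iff.rfl
  let c : MvPolynomial (d × d) ℂ →ₗ[ℂ] ((d × d →₀ ℕ) →₀ ℂ) :=
    ((basisMonomials (d × d) ℂ).repr).toLinearMap
  have hc : Function.Injective c := (basisMonomials (d × d) ℂ).repr.injective
  have hcc : ∀ p m, c p m = coeff m p := fun p m => rfl
  have hdes := Pool.Agent.Helper3_MT.descent c hc W (fun τ p hp =>
    ⟨MvPolynomial.map (τ : ℂ →+* ℂ) p, by
      rw [hWm]
      intro z hz
      have h1 := pev_aut τ (z.map τ.symm) p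
      have h2 : (z.map τ.symm).map τ = z := by
        ext i j
        simp
      rw [h2, (hWm p).mp hp _ (hZ τ.symm z hz), map_zero] at h1
      exact h1, fun m => by
      rw [hcc, hcc, MvPolynomial.coeff_map]
      rfl⟩)
  have h3 := hdes (MvPolynomial.map ι f) ((hWm _).mpr hf)
  by_contra hcon
  obtain ⟨φ, hφ, hker⟩ := Submodule.exists_le_ker_of_notMem hcon
  obtain ⟨Φ, hΦ⟩ := ext_fun L ι φ
  have h4 : Submodule.span ℂ {v | v ∈ W ∧ ∀ i, c v i ∈ Set.range (algebraMap ℚ ℂ)} ≤
      LinearMap.ker Φ := by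
    rw [Submodule.span_le]
    rintro v ⟨hv, hvr⟩
    choose q hq using hvr
    -- the rational polynomial
    have h5 : ∃ g : MvPolynomial (d × d) ℚ, MvPolynomial.map (algebraMap ℚ ℂ) g = v := by
      rw [← Set.mem_range, MvPolynomial.mem_range_map_iff_coeffs_subset]
      intro x hx
      obtain ⟨m, hm⟩ := MvPolynomial.mem_coeffs_iff.mp hx
      exact ⟨q m, by rw [hq, hcc, hm.2]⟩
    obtain ⟨g, rfl⟩ := h5
    have h6 : MvPolynomial.map (algebraMap ℚ ℂ) g =
        MvPolynomial.map ι (MvPolynomial.map (algebraMap ℚ L) g) := by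
      rw [MvPolynomial.map_map, Subsingleton.elim (ι.comp (algebraMap ℚ L)) (algebraMap ℚ ℂ)]
    rw [SetLike.mem_coe, LinearMap.mem_ker, h6, hΦ]
    have h7 : MvPolynomial.map (algebraMap ℚ L) g ∈ LinearMap.ker φ :=
      hker (Submodule.subset_span ⟨g, fun z hz => (hWm _).mp hv z hz, rfl⟩)
    rw [LinearMap.mem_ker.mp h7, map_zero]
  have h8 := LinearMap.mem_ker.mp (h4 h3)
  rw [hΦ] at h8
  exact hφ ((map_eq_zero ι).mp h8)

end Pool.Agent.MT100A.H64
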